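import Pool.Agent.H71.BD.Tree

set_option autoImplicit false

/-!
# Inverse limits of coverings
-/

noncomputable section

namespace Pool.Agent.H71.BD

universe u

variable {T : ℕ → GTree.{u}} {K : ℕ → ℕ}

/-- threads -/
def Thr (C : ∀ i, Cov (K i) (T (i + 1)) (T i)) : Type u :=
  {p : ∀ i, (T i).V // ∀ i, (C i).π (p (i + 1)) = p i}

theorem Thr.ext {C : ∀ i, Cov (K i) (T (i + 1)) (T i)} {p q : Thr C} (h : ∀ i, p.1 i = q.1 i) :
    p = q := Subtype.ext (funext h)

theorem Thr.lev {C : ∀ i, Cov (K i) (T (i + 1)) (T i)} (p : Thr C) (i : ℕ) :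
    (T i).lev (p.1 i) = (T 0).lev (p.1 0) := by
  induction i with
  | zero => rfl
  | succ i ih => rw [← ih, ← p.2 i, (C i).lev_π]

theorem Thr.lev' {C : ∀ i, Cov (K i) (T (i + 1)) (T i)} (p : Thr C) (i j : ℕ) :
    (T i).lev (p.1 i) = (T j).lev (p.1 j) := by
  rw [p.lev i, p.lev j]

theorem le_K (hK : ∀ i, K i < K (i + 1)) (i : ℕ) : i ≤ K i := by
  induction i with
  | zero => exact Nat.zero_le _
  | succ i ih => have := hK i; omega

theorem K_mono (hK : ∀ i, K i < K (i + 1)) {i j : ℕ} (h : i ≤ j) : K i ≤ K j :=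
  (strictMono_nat_of_lt_succ hK).monotone h

theorem exists_thr (j : ℕ) : ∀ {T : ℕ → GTree.{u}} {K : ℕ → ℕ}
    (C : ∀ i, Cov (K i) (T (i + 1)) (T i)) (_ : ∀ i, K i < K (i + 1)) (q : (T j).V)
    (_ : (T j).lev q ≤ 2 * K j), ∃ p : Thr C, p.1 j = q := by
  induction j with
  | zero =>
    intro T K C hK q hq
    have step : ∀ (i : ℕ) (v : {v : (T i).V // (T i).lev v = (T 0).lev q}),
        ∃ w : {w : (T (i + 1)).V // (T (i + 1)).lev w = (T 0).lev q}, (C i).π w.1 = v.1 := by
      intro i v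
      obtain ⟨w, hw⟩ := (C i).surj v.1 (by
        rw [v.2]
        have := K_mono hK (Nat.zero_le i)
        omega)
      exact ⟨⟨w, by rw [← v.2, ← hw, (C i).lev_π]⟩, hw⟩
    choose f hf using step
    let s : ∀ i, {v : (T i).V // (T i).lev v = (T 0).lev q} := fun i =>
      Nat.rec ⟨q, rfl⟩ (fun i v => f i v) i
    exact ⟨⟨fun i => (s i).1, fun i => hf i (s i)⟩, rfl⟩
  | succ j ih =>
    intro T K C hK q hq
    obtain ⟨p, hp⟩ := ih (T := fun i => T (i + 1)) (K := fun i => K (i + 1))
      (fun i => C (i + 1)) (fun i => hK (i + 1)) q hq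
    refine ⟨⟨fun i => Nat.casesOn i ((C 0).π (p.1 0)) (fun i => p.1 i), fun i => ?_⟩, hp⟩
    cases i with
    | zero => rfl
    | succ i => exact p.2 i

theorem Thr.eq_of_le {C : ∀ i, Cov (K i) (T (i + 1)) (T i)} {p q : Thr C} {n : ℕ}
    (h : p.1 n = q.1 n) : ∀ i ≤ n, p.1 i = q.1 i := by
  induction n with
  | zero => intro i hi; obtain rfl : i = 0 := by omega
            exact h
  | succ n ih =>
    intro i hi
    rcases Nat.lt_or_ge n i with h1 | h1
    · obtain rfl : i = n + 1 := by omega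
      exact h
    · exact ih (by rw [← p.2 n, ← q.2 n, h]) i h1

theorem Thr.eq_of_ge {C : ∀ i, Cov (K i) (T (i + 1)) (T i)} (hK : ∀ i, K i < K (i + 1))
    {p q : Thr C} {n : ℕ} (h : p.1 n = q.1 n) (hn : (T n).lev (p.1 n) ≤ 2 * K n) :
    ∀ j, p.1 (n + j) = q.1 (n + j) := by
  intro j
  induction j with
  | zero => exact h
  | succ j ih =>
    refine (C (n + j)).inj _ _ ?_ ?_
    · change (T (n + (j + 1))).lev (p.1 (n + (j + 1))) ≤ _
      rw [p.lev' (n + (j + 1)) n]
      have := K_mono hK (Nat.le_add_right n j)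
      omega
    · change (C (n + j)).π (p.1 (n + j + 1)) = (C (n + j)).π (q.1 (n + j + 1))
      rw [p.2, q.2]
      exact ih

theorem Thr.unique {C : ∀ i, Cov (K i) (T (i + 1)) (T i)} (hK : ∀ i, K i < K (i + 1))
    {p q : Thr C} {n : ℕ} (h : p.1 n = q.1 n) (hn : (T n).lev (p.1 n) ≤ 2 * K n) : p = q := by
  apply Thr.ext
  intro i
  rcases Nat.le_total i n with h1 | h1
  · exact Thr.eq_of_le h i h1
  · obtain ⟨j, rfl⟩ := Nat.exists_eq_add_of_le h1
    exact Thr.eq_of_ge hK h hn j

/-- the inverse limit tree -/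
def limT (C : ∀ i, Cov (K i) (T (i + 1)) (T i)) (hK : ∀ i, K i < K (i + 1)) : GTree.{u} where
  V := Thr C
  lev p := (T 0).lev (p.1 0)
  par p := ⟨fun i => (T i).par (p.1 i), fun i => by rw [(C i).par_π, p.2]⟩
  lev_par p := (T 0).lev_par _
  par_root p hp := by
    apply Thr.ext
    intro i
    exact (T i).par_root _ (by rw [p.lev i]; exact hp)
  pruned p := by
    set n := (T 0).lev (p.1 0) with hn
    obtain ⟨w, hw1, hw2⟩ := (T (n + 1)).pruned (p.1 (n + 1))
    rw [p.lev] at hw1
    have h1 := le_K hK (n + 1)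
    obtain ⟨q, hq⟩ := exists_thr (n + 1) C hK w (by omega)
    refine ⟨q, ?_, ?_⟩
    · rw [← q.lev (n + 1), hq, hw1]
    · refine Thr.unique hK (n := n + 1) ?_ ?_
      · change (T (n + 1)).par (q.1 (n + 1)) = _
        rw [hq, hw2]
      · change (T (n + 1)).lev ((T (n + 1)).par (q.1 (n + 1))) ≤ _
        rw [hq, hw2, p.lev]
        omega

variable (C : ∀ i, Cov (K i) (T (i + 1)) (T i)) (hK : ∀ i, K i < K (i + 1))

/-- the projections from the limit -/
def limProj (j : ℕ) : TMap (limT C hK) (T j) where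
  f p := p.1 j
  lev_f p := p.lev j
  par_f _ := rfl

theorem limProj_comp (j : ℕ) :
    (C j).toTMap.comp (limProj C hK (j + 1)) = limProj C hK j := by
  unfold TMap.comp limProj Cov.toTMap
  congr 1
  funext p
  exact p.2 j

/-- a chosen thread through `q` -/
def thr (j : ℕ) (q : (T j).V) (h : (T j).lev q ≤ 2 * K j) : (limT C hK).V :=
  (exists_thr j C hK q h).choose

theorem thr_spec (j : ℕ) (q : (T j).V) (h : (T j).lev q ≤ 2 * K j) :
    (thr C hK j q h).1 j = q := (exists_thr j C hK q h).choose_spec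

theorem thr_eq (j : ℕ) (p : (limT C hK).V) (h : (T j).lev (p.1 j) ≤ 2 * K j) :
    thr C hK j (p.1 j) h = p := by
  refine Thr.unique hK (n := j) (thr_spec C hK j _ h) ?_
  rw [thr_spec]
  exact h

theorem thr_lev (j : ℕ) (q : (T j).V) (h : (T j).lev q ≤ 2 * K j) :
    (limT C hK).lev (thr C hK j q h) = (T j).lev q := by
  change (T 0).lev ((thr C hK j q h).1 0) = _
  rw [← Thr.lev (thr C hK j q h) j, thr_spec]

/-- starting strategies -/
def rho (s : Strat (limT C hK)) (j : ℕ) : Strat (T j) :=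
  ⟨fun v => if h : (T j).lev v < 2 * K j then (s (thr C hK j v h.le)).1 j else dflt v, fun v => by
    by_cases h : (T j).lev v < 2 * K j
    · simp only [dif_pos h]
      have hc := s.child (thr C hK j v h.le)
      refine ⟨?_, ?_⟩
      · have h3 := hc.1
        rw [thr_lev] at h3
        exact (Thr.lev (s (thr C hK j v h.le)) j).trans h3
      · have h2 : ((limT C hK).par (s (thr C hK j v h.le))).1 j = (thr C hK j v h.le).1 j := by
          rw [hc.2]
        rw [thr_spec] at h2
        exact h2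
    · simp only [dif_neg h]
      exact dflt_child v⟩

theorem rho_apply (s : Strat (limT C hK)) (j : ℕ) (p : (limT C hK).V)
    (h : (limT C hK).lev p < 2 * K j) : rho C hK s j (p.1 j) = (s p).1 j := by
  have h' : (T j).lev (p.1 j) < 2 * K j := (Thr.lev p j).trans_lt h
  unfold rho
  change (if h : _ then _ else _) = _
  rw [dif_pos h', thr_eq]

/-- the shift operator on sequences of strategies -/
def Phi (i : Fin 2) (r : ∀ j, Strat (T j)) (j : ℕ) : Strat (T j) := (C j).φ i (r (j + 1))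

theorem Phi_local (i : Fin 2) (r r' : ∀ j, Strat (T j)) (n : ℕ)
    (h : ∀ j v, (T j).lev v ≤ n → r j v = r' j v) (m : ℕ) :
    ∀ j v, (T j).lev v ≤ n → (Phi C i)^[m] r j v = (Phi C i)^[m] r' j v := by
  induction m with
  | zero => exact h
  | succ m ih =>
    intro j v hv
    rw [Function.iterate_succ_apply', Function.iterate_succ_apply']
    exact (C j).local_φ i n _ _ (fun w hw => ih (j + 1) w hw) v hv

theorem Phi_rho (i : Fin 2) (s : Strat (limT C hK)) (j : ℕ) (v : (T j).V)
    (hv : (T j).lev v < 2 * K j) : Phi C i (rho C hK s) j v = rho C hK s j v := by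
  set p := thr C hK j v hv.le with hp
  have hpj : p.1 j = v := thr_spec C hK j v hv.le
  have hlp : (limT C hK).lev p = (T j).lev v := thr_lev C hK j v hv.le
  have h1 : (T (j + 1)).lev (p.1 (j + 1)) < 2 * K j := by
    refine (Thr.lev p (j + 1)).trans_lt ?_
    change (limT C hK).lev p < _
    rw [hlp]; exact hv
  have hag := (C j).agree i (rho C hK s (j + 1)) (p.1 (j + 1)) h1
  rw [p.2 j, hpj] at hag
  change (C j).φ i (rho C hK s (j + 1)) v = _
  have hKj := hK j
  rw [hag, rho_apply C hK s (j + 1) p (by omega), (s p).2 j]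
  conv_rhs => rw [← hpj]
  rw [rho_apply C hK s j p (by omega)]

theorem Phi_stab (i : Fin 2) (s : Strat (limT C hK)) (n : ℕ) :
    ∀ (j : ℕ) (v : (T j).V), (T j).lev v < 2 * K (j + n) →
      (Phi C i)^[n + 1] (rho C hK s) j v = (Phi C i)^[n] (rho C hK s) j v := by
  induction n with
  | zero => intro j v hv; exact Phi_rho C hK i s j v hv
  | succ n ih =>
    intro j v hv
    rw [Function.iterate_succ_apply' (Phi C i) (n + 1)]
    conv_rhs => rw [Function.iterate_succ_apply' (Phi C i) n]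
    refine (C j).local_φ i ((T j).lev v) _ _ (fun w hw => ?_) v le_rfl
    apply ih (j + 1) w
    have : j + 1 + n = j + (n + 1) := by omega
    rw [this]
    omega

theorem Phi_stab' (i : Fin 2) (s : Strat (limT C hK)) (j : ℕ) (v : (T j).V) (n m : ℕ)
    (hv : (T j).lev v < 2 * K (j + n)) :
      (Phi C i)^[n + m] (rho C hK s) j v = (Phi C i)^[n] (rho C hK s) j v := by
  induction m with
  | zero => rfl
  | succ m ih =>
    rw [← ih]
    apply Phi_stab C hK i s (n + m) j v
    have := K_mono hK (show j + n ≤ j + (n + m) by omega)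
    omega

/-- the limit strategies on the trees `T j` -/
def sig (i : Fin 2) (s : Strat (limT C hK)) (j : ℕ) : Strat (T j) :=
  ⟨fun v => (Phi C i)^[(T j).lev v + 1] (rho C hK s) j v, fun v => Strat.child _ v⟩

theorem sig_eq (i : Fin 2) (s : Strat (limT C hK)) (j : ℕ) (v : (T j).V) (n : ℕ)
    (hn : (T j).lev v + 1 ≤ n) : sig C hK i s j v = (Phi C i)^[n] (rho C hK s) j v := by
  obtain ⟨m, rfl⟩ := Nat.exists_eq_add_of_le hn
  symm
  apply Phi_stab' C hK i s j v
  have := le_K hK (j + ((T j).lev v + 1))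
  omega

theorem sig_fix (i : Fin 2) (s : Strat (limT C hK)) (j : ℕ) :
    (C j).φ i (sig C hK i s (j + 1)) = sig C hK i s j := by
  apply Subtype.ext
  funext v
  change (C j).φ i (sig C hK i s (j + 1)) v = _
  have h1 := (C j).local_φ i ((T j).lev v) (sig C hK i s (j + 1))
    ((Phi C i)^[(T j).lev v + 1] (rho C hK s) (j + 1)) (fun w hw =>
      sig_eq C hK i s (j + 1) w _ (by omega)) v le_rfl
  rw [h1]
  change _ = sig C hK i s j v
  rw [sig_eq C hK i s j v ((T j).lev v + 1 + 1) (by omega),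
    Function.iterate_succ_apply' (Phi C i) ((T j).lev v + 1)]
  rfl

theorem sig_rho (i : Fin 2) (s : Strat (limT C hK)) (j : ℕ) (v : (T j).V)
    (hv : (T j).lev v < 2 * K j) : sig C hK i s j v = rho C hK s j v := by
  rw [sig_eq C hK i s j v (0 + ((T j).lev v + 1)) (by omega)]
  exact Phi_stab' C hK i s j v 0 _ hv

theorem sig_apply (i : Fin 2) (s : Strat (limT C hK)) (j : ℕ) (p : (limT C hK).V)
    (h : (limT C hK).lev p < 2 * K j) : sig C hK i s j (p.1 j) = (s p).1 j := by
  rw [sig_rho C hK i s j _ ((Thr.lev p j).trans_lt h), rho_apply C hK s j p h]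

theorem sig_lift (i : Fin 2) (s : Strat (limT C hK)) (x : Body (T 0))
    (hx : Cons i (sig C hK i s 0) x) :
    ∃ y : Body (limT C hK), Cons i s y ∧ ∀ n, (y n).1 0 = x n := by
  have step : ∀ (j : ℕ) (v : {v : Body (T j) // Cons i (sig C hK i s j) v}),
      ∃ w : {w : Body (T (j + 1)) // Cons i (sig C hK i s (j + 1)) w},
        ∀ n, (C j).π (w.1 n) = v.1 n := by
    intro j v
    obtain ⟨w, hw, hw2⟩ := (C j).lift i (sig C hK i s (j + 1)) v.1 (by
      rw [sig_fix]; exact v.2)
    exact ⟨⟨w, hw⟩, hw2⟩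
  choose f hf using step
  let xs : ∀ j, {v : Body (T j) // Cons i (sig C hK i s j) v} := fun j =>
      Nat.rec ⟨x, hx⟩ (fun j v => f j v) j
  have hxs : ∀ j n, (C j).π ((xs (j + 1)).1 n) = (xs j).1 n := fun j n => hf j (xs j) n
  let y : ℕ → (limT C hK).V := fun n => ⟨fun j => (xs j).1 n, fun j => hxs j n⟩
  have hy : ∀ n, (limT C hK).lev (y n) = n := fun n => (xs 0).1.lev n
  refine ⟨⟨y, fun n => ⟨hy n, ?_⟩⟩, ?_, fun n => rfl⟩
  · apply Thr.ext
    intro j
    exact (xs j).1.par n
  · intro n hn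
    change y (n + 1) = s (y n)
    have hk := le_K hK (n + 1)
    have hch := s.child (y n)
    refine Thr.unique hK (n := n + 1) ?_ ?_
    · rw [← sig_apply C hK i s (n + 1) (y n) (by rw [hy]; omega)]
      exact (xs (n + 1)).2 n hn
    · refine (Thr.lev (y (n + 1)) (n + 1)).trans_le ?_
      change (limT C hK).lev (y (n + 1)) ≤ _
      rw [hy]
      omega

/-- The covering of `T 0` by the limit. -/
def limCov : Cov (K 0) (limT C hK) (T 0) where
  π p := p.1 0
  lev_π p := rfl
  par_π p := rfl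
  φ i s := sig C hK i s 0
  local_φ i n s s' h v hv := by
    rw [sig_eq C hK i s 0 v (n + 1) (by omega), sig_eq C hK i s' 0 v (n + 1) (by omega)]
    refine Phi_local C i _ _ n (fun j w hw => ?_) (n + 1) 0 v hv
    unfold rho
    change (if h : _ then _ else _) = (if h : _ then _ else _)
    by_cases hw2 : (T j).lev w < 2 * K j
    · rw [dif_pos hw2, dif_pos hw2, h _ (by rw [thr_lev]; exact hw)]
    · rw [dif_neg hw2, dif_neg hw2]
  lift i s x hx := sig_lift C hK i s x hx
  inj v w hv h := Thr.unique hK (n := 0) h hv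
  surj t ht := exists_thr 0 C hK t ht
  agree i s v hv := sig_apply C hK i s 0 v hv

theorem limCov_toTMap : (limCov C hK).toTMap = limProj C hK 0 := rfl

end Pool.Agent.H71.BD
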