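import Pool.Agent.H71.BD.Closed2
import Pool.Agent.H71.BD.Limit

set_option autoImplicit false

/-!
# Borel determinacy
-/

noncomputable section

namespace Pool.Agent.H71.BD

universe u

/-- open sets of branches -/
def OpenB {T : GTree.{u}} (W : Set (Body T)) : Prop := ∀ x ∈ W, ∃ n, ∀ y : Body T, y n = x n → y ∈ W

/-- Borel sets of branches -/
inductive BorelB {T : GTree.{u}} : Set (Body T) → Prop
  | opn (W : Set (Body T)) : OpenB W → BorelB W
  | compl (W : Set (Body T)) : BorelB W → BorelB Wᶜ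
  | union (f : ℕ → Set (Body T)) : (∀ n, BorelB (f n)) → BorelB (⋃ n, f n)

variable {T : GTree.{u}}

theorem OpenB.preimage {S : GTree.{u}} (f : TMap S T) {W : Set (Body T)} (h : OpenB W) :
    OpenB (f.body ⁻¹' W) := by
  intro x hx
  obtain ⟨n, hn⟩ := h _ hx
  refine ⟨n, fun y hy => hn _ ?_⟩
  rw [TMap.body_apply, TMap.body_apply, hy]

theorem OpenB.iUnion {f : ℕ → Set (Body T)} (h : ∀ n, OpenB (f n)) : OpenB (⋃ n, f n) := by
  intro x hx
  obtain ⟨i, hi⟩ := Set.mem_iUnion.1 hx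
  obtain ⟨n, hn⟩ := h i x hi
  exact ⟨n, fun y hy => Set.mem_iUnion.2 ⟨i, hn y hy⟩⟩

/-- universally unraveled sets -/
def UU (W : Set (Body T)) : Prop := ∀ (S : GTree.{u}) (f : TMap S T) (k : ℕ),
  ∃ (R : GTree.{u}) (C : Cov k R S),
    OpenB ((f.comp C.toTMap).body ⁻¹' W) ∧ OpenB ((f.comp C.toTMap).body ⁻¹' Wᶜ)

theorem body_comp {R S : GTree.{u}} (f : TMap S T) (g : TMap R S) (x : Body R) :
    (f.comp g).body x = f.body (g.body x) := rfl

theorem unravel_open {W : Set (Body T)} (hW : OpenB W) (k : ℕ) :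
    ∃ (R : GTree.{u}) (C : Cov k R T),
      OpenB (C.toTMap.body ⁻¹' W) ∧ OpenB (C.toTMap.body ⁻¹' Wᶜ) := by
  let G : Set T.V := {v | ∀ x : Body T, x (T.lev v) = v → x ∈ W}
  have hG : ∀ v w, v ∈ G → IsChild T w v → w ∈ G := by
    intro v w hv hw x hx
    apply hv x
    rw [hw.1] at hx
    rw [← x.par, hx, hw.2]
  have hWG : ∀ x : Body T, x ∈ W ↔ ∃ n, x n ∈ G := by
    intro x
    constructor
    · intro hx
      obtain ⟨n, hn⟩ := hW x hx
      refine ⟨n, fun y hy => hn y ?_⟩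
      rwa [x.lev] at hy
    · rintro ⟨n, hn⟩
      exact hn x (by rw [x.lev])
  have key : ∀ y z : Body (unr G k), y (2 * k + 2) = z (2 * k + 2) →
      (unrCov G k).toTMap.body y ∈ W → (unrCov G k).toTMap.body z ∈ W := by
    intro y z h hy
    rw [hWG] at hy ⊢
    exact unr_decides hG y z h hy
  refine ⟨unr G k, unrCov G k, fun x hx => ⟨2 * k + 2, fun y hy => ?_⟩,
    fun x hx => ⟨2 * k + 2, fun y hy hyW => hx ?_⟩⟩
  · exact key x y hy.symm hx
  · exact key y x hy hyW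

theorem UU.opn {W : Set (Body T)} (hW : OpenB W) : UU W := by
  intro S f k
  obtain ⟨R, C, h1, h2⟩ := unravel_open (hW.preimage f) k
  exact ⟨R, C, h1, h2⟩

theorem UU.compl {W : Set (Body T)} (hW : UU W) : UU Wᶜ := by
  intro S f k
  obtain ⟨R, C, h1, h2⟩ := hW S f k
  refine ⟨R, C, h2, ?_⟩
  rw [compl_compl]
  exact h1

theorem UU.union {W : ℕ → Set (Body T)} (hW : ∀ n, UU (W n)) : UU (⋃ n, W n) := by
  intro S f k
  choose R C hC using hW
  let seq : ℕ → Σ A : GTree.{u}, TMap A T := fun i =>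
    Nat.rec ⟨S, f⟩ (fun i p => ⟨R i p.1 p.2 (k + i), p.2.comp (C i p.1 p.2 (k + i)).toTMap⟩) i
  let Ts : ℕ → GTree.{u} := fun i => (seq i).1
  let K : ℕ → ℕ := fun i => k + i
  let Cs : ∀ i, Cov (K i) (Ts (i + 1)) (Ts i) := fun i => C i (seq i).1 (seq i).2 (k + i)
  have hK : ∀ i, K i < K (i + 1) := fun i => by
    change k + i < k + (i + 1)
    omega
  let L := limT Cs hK
  have hproj : ∀ i, (seq i).2.comp (limProj Cs hK i) = f.comp (limProj Cs hK 0) := by
    intro i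
    induction i with
    | zero => rfl
    | succ i ih =>
      rw [← ih]
      have h := limProj_comp Cs hK i
      rw [← h]
      rfl
  have hcl : ∀ i, OpenB ((f.comp (limProj Cs hK 0)).body ⁻¹' W i) ∧
      OpenB ((f.comp (limProj Cs hK 0)).body ⁻¹' (W i)ᶜ) := by
    intro i
    obtain ⟨h1, h2⟩ := hC i (seq i).1 (seq i).2 (k + i)
    rw [← hproj (i + 1)]
    exact ⟨h1.preimage (limProj Cs hK (i + 1)), h2.preimage (limProj Cs hK (i + 1))⟩
  have hop : OpenB ((f.comp (limProj Cs hK 0)).body ⁻¹' (⋃ n, W n)) := by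
    rw [Set.preimage_iUnion]
    exact OpenB.iUnion fun i => (hcl i).1
  obtain ⟨R', C', h1, h2⟩ := unravel_open hop k
  exact ⟨R', (limCov Cs hK).comp C', h1, h2⟩

theorem BorelB.uu {W : Set (Body T)} (hW : BorelB W) : UU W := by
  induction hW with
  | opn W h => exact UU.opn h
  | compl W _ ih => exact ih.compl
  | union f _ ih => exact UU.union ih

/-- Borel determinacy. -/
theorem borel_det {W : Set (Body T)} (hW : BorelB W) (r : T.V) (hr : T.lev r = 0) :
    (∃ s : Strat T, ∀ x : Body T, x 0 = r → Cons 0 s x → x ∈ W) ∨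
    (∃ s : Strat T, ∀ x : Body T, x 0 = r → Cons 1 s x → x ∉ W) := by
  obtain ⟨R, C, h1, h2⟩ := hW.uu T (TMap.id T) 0
  obtain ⟨v, hv⟩ := C.surj r (by omega)
  have hlv : R.lev v = 0 := by rw [← C.lev_π, hv, hr]
  have lift : ∀ (i : Fin 2) (s : Strat R) (x : Body T), x 0 = r → Cons i (C.φ i s) x →
      ∃ y : Body R, y 0 = v ∧ Cons i s y ∧ C.toTMap.body y = x := by
    intro i s x hx hc
    obtain ⟨y, hy, hyx⟩ := C.lift' i s x hc
    refine ⟨y, C.inj _ _ (by rw [y.lev]) ?_, hy, hyx⟩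
    rw [hv, ← hx, ← hyx]
    rfl
  rcases open_det (C.toTMap.body ⁻¹' W) h1 v hlv with ⟨s, hs⟩ | ⟨s, hs⟩
  · left
    refine ⟨C.φ 0 s, fun x hx hc => ?_⟩
    obtain ⟨y, hy0, hyc, hyx⟩ := lift 0 s x hx hc
    rw [← hyx]
    exact hs y hy0 hyc
  · right
    refine ⟨C.φ 1 s, fun x hx hc hxW => ?_⟩
    obtain ⟨y, hy0, hyc, hyx⟩ := lift 1 s x hx hc
    rw [← hyx] at hxW
    exact hs y hy0 hyc hxW

end Pool.Agent.H71.BD
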