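import Pool.Agent.H71.BD.Tree

set_option autoImplicit false

/-!
# Unraveling open (equivalently closed) sets
-/

noncomputable section

namespace Pool.Agent.H71.BD

universe u

variable {T : GTree.{u}}

theorem par_anc_mem {S : Set T.V} {k : ℕ} (h : ∀ v ∈ S, k < T.lev v → T.par v ∈ S) {v : T.V}
    (hv : v ∈ S) {n : ℕ} (hn : k ≤ n) : anc n v ∈ S := by
  rcases Nat.lt_or_ge (T.lev v) n with h1 | h1
  · rw [anc_of_le h1.le]; exact hv
  · obtain ⟨j, hj⟩ := Nat.exists_eq_add_of_le h1
    induction j generalizing v with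
    | zero => rw [anc_of_le (by omega)]; exact hv
    | succ j ih =>
      rw [← anc_par (by omega)]
      have hp : T.lev (T.par v) = n + j := by rw [T.lev_par]; omega
      exact ih (h v hv (by omega)) (by omega) hp

/-- auxiliary moves -/
inductive Aux (V : Type u) : Type u
  | non : Aux V
  | si : Set V → Aux V
  | o1 : Set V → V → Aux V
  | o2 : Set V → Set V → Aux V

/-- the first component of an auxiliary move -/
def Aux.set {V : Type u} : Aux V → Set V
  | .non => ∅
  | .si S => S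
  | .o1 S _ => S
  | .o2 S _ => S

/-- quasi-strategies for the first player, above `r` of level `2 * k + 1` -/
structure QI (k : ℕ) (S : Set T.V) (r : T.V) : Prop where
  root : r ∈ S
  above : ∀ v ∈ S, 2 * k + 1 ≤ T.lev v ∧ anc (2 * k + 1) v = r
  par : ∀ v ∈ S, 2 * k + 1 < T.lev v → T.par v ∈ S
  opp : ∀ v ∈ S, T.lev v % 2 = 1 → ∀ w, IsChild T w v → w ∈ S
  own : ∀ v ∈ S, T.lev v % 2 = 0 → ∃ w ∈ S, IsChild T w v

/-- quasi-strategies for the second player inside `S`, above `r` of level `2 * k + 2` -/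
structure QII (G : Set T.V) (k : ℕ) (S' S : Set T.V) (r : T.V) : Prop where
  root : r ∈ S'
  sub : S' ⊆ S
  above : ∀ v ∈ S', 2 * k + 2 ≤ T.lev v ∧ anc (2 * k + 2) v = r
  par : ∀ v ∈ S', 2 * k + 2 < T.lev v → T.par v ∈ S'
  opp : ∀ v ∈ S', T.lev v % 2 = 0 → ∀ w ∈ S, IsChild T w v → w ∈ S'
  own : ∀ v ∈ S', T.lev v % 2 = 1 → ∃ w ∈ S', IsChild T w v
  safe : ∀ v ∈ S', v ∉ G

/-- valid auxiliary moves -/
def valid (G : Set T.V) (k : ℕ) (v : T.V) : Aux T.V → Prop
  | .non => T.lev v ≤ 2 * k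
  | .si S => T.lev v = 2 * k + 1 ∧ QI k S v
  | .o1 S u => 2 * k + 2 ≤ T.lev v ∧ QI k S (anc (2 * k + 1) v) ∧ u ∈ S ∧ u ∈ G ∧
      2 * k + 2 ≤ T.lev u ∧ anc (T.lev u) v = anc (T.lev v) u
  | .o2 S S' => 2 * k + 2 ≤ T.lev v ∧ QI k S (anc (2 * k + 1) v) ∧
      QII G k S' S (anc (2 * k + 2) v) ∧ v ∈ S'

open Classical in
/-- the auxiliary move of the parent -/
def paux (k : ℕ) (v : T.V) (a : Aux T.V) : Aux T.V :=
  if T.lev v ≤ 2 * k + 1 then .non else if T.lev v = 2 * k + 2 then .si a.set else a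

variable {G : Set T.V} {k : ℕ} {v w : T.V} {a : Aux T.V}

theorem valid_non (h : valid G k v a) (hv : T.lev v ≤ 2 * k) : a = .non := by
  cases a with
  | non => rfl
  | si S => exact absurd h.1 (by omega)
  | o1 S u => exact absurd h.1 (by omega)
  | o2 S S' => exact absurd h.1 (by omega)

theorem valid_si (h : valid G k v a) (hv : T.lev v = 2 * k + 1) : a = .si a.set ∧ QI k a.set v := by
  cases a with
  | non => exact absurd (show T.lev v ≤ 2 * k from h) (by omega)
  | si S => exact ⟨rfl, h.2⟩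
  | o1 S u => exact absurd h.1 (by omega)
  | o2 S S' => exact absurd h.1 (by omega)

theorem valid_ge (h : valid G k v a) (hv : 2 * k + 2 ≤ T.lev v) :
    (∃ S u, a = .o1 S u) ∨ (∃ S S', a = .o2 S S') := by
  cases a with
  | non => exact absurd (show T.lev v ≤ 2 * k from h) (by omega)
  | si S => exact absurd h.1 (by omega)
  | o1 S u => exact Or.inl ⟨_, _, rfl⟩
  | o2 S S' => exact Or.inr ⟨_, _, rfl⟩

theorem compat_par {u v : T.V} (h : anc (T.lev u) v = anc (T.lev v) u) :
    anc (T.lev u) (T.par v) = anc (T.lev (T.par v)) u := by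
  rcases Nat.eq_zero_or_pos (T.lev v) with h0 | h0
  · rw [T.par_root v h0]; exact h
  rw [T.lev_par]
  rcases Nat.lt_or_ge (T.lev u) (T.lev v) with h1 | h1
  · rw [anc_par h1, h, anc_of_le h1.le, anc_of_le (by omega)]
  · rw [anc_of_le h1] at h
    rw [anc_of_le (by rw [T.lev_par]; omega)]
    conv_lhs => rw [h]
    have h2 : T.lev v - 1 + 1 = T.lev v := by omega
    conv_lhs => rw [← h2]
    exact par_anc (by omega)

theorem valid_par (h : valid G k v a) : valid G k (T.par v) (paux k v a) := by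
  unfold paux
  by_cases h1 : T.lev v ≤ 2 * k + 1
  · rw [if_pos h1]
    change T.lev (T.par v) ≤ 2 * k
    rw [T.lev_par]
    omega
  rw [if_neg h1]
  by_cases h2 : T.lev v = 2 * k + 2
  · rw [if_pos h2]
    have hp : T.lev (T.par v) = 2 * k + 1 := by rw [T.lev_par]; omega
    have hp2 : anc (2 * k + 1) v = T.par v := by
      rw [← anc_par (by omega), anc_of_le hp.le]
    rcases valid_ge h (by omega) with ⟨S, u, rfl⟩ | ⟨S, S', rfl⟩
    · refine ⟨hp, ?_⟩
      have := h.2.1
      rw [hp2] at this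
      exact this
    · refine ⟨hp, ?_⟩
      have := h.2.1
      rw [hp2] at this
      exact this
  rw [if_neg h2]
  have hp : 2 * k + 2 ≤ T.lev (T.par v) := by rw [T.lev_par]; omega
  rcases valid_ge h (by omega) with ⟨S, u, rfl⟩ | ⟨S, S', rfl⟩
  · obtain ⟨h3, h4, h5, h6, h7, h8⟩ := h
    refine ⟨hp, ?_, h5, h6, h7, compat_par h8⟩
    rw [anc_par (by omega)]
    exact h4
  · obtain ⟨h3, h4, h5, h6⟩ := h
    refine ⟨hp, ?_, ?_, h5.par v h6 (by omega)⟩
    · rw [anc_par (by omega)]
      exact h4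
    · rw [anc_par (by omega)]
      exact h5

theorem mem_above {r q : T.V} {n : ℕ} (hq : n ≤ T.lev q) (h : anc n q = r) (hw : IsChild T w q) :
    n ≤ T.lev w ∧ anc n w = r := by
  refine ⟨by rw [hw.1]; omega, ?_⟩
  rw [anc_child hw hq, h]

/-- the unraveled tree -/
def unr (G : Set T.V) (k : ℕ) : GTree.{u} where
  V := {p : T.V × Aux T.V // valid G k p.1 p.2}
  lev p := T.lev p.1.1
  par p := ⟨(T.par p.1.1, paux k p.1.1 p.1.2), valid_par p.2⟩
  lev_par p := T.lev_par _
  par_root p hp := by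
    obtain ⟨⟨v, a⟩, h⟩ := p
    have hp' : T.lev v = 0 := hp
    have h' : valid G k v a := h
    apply Subtype.ext
    apply Prod.ext
    · exact T.par_root _ hp'
    · change paux k v a = a
      unfold paux
      rw [if_pos (by omega), valid_non h' (by omega)]
  pruned p := by
    obtain ⟨⟨v, a⟩, h⟩ := p
    have h' : valid G k v a := h
    suffices hs : ∃ w b, valid G k w b ∧ IsChild T w v ∧ paux k w b = a by
      obtain ⟨w, b, h1, h2, h3⟩ := hs
      refine ⟨⟨(w, b), h1⟩, h2.1, ?_⟩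
      apply Subtype.ext
      exact Prod.ext h2.2 h3
    rcases Nat.lt_or_ge (T.lev v) (2 * k) with c1 | c1
    · refine ⟨dflt v, .non, ?_, dflt_child v, ?_⟩
      · change T.lev (dflt v) ≤ 2 * k
        rw [(dflt_child v).1]; omega
      · unfold paux
        rw [if_pos (by rw [(dflt_child v).1]; omega), valid_non h' (by omega)]
    rcases Nat.lt_or_ge (2 * k) (T.lev v) with c2 | c2
    swap
    · have hl : T.lev (dflt v) = 2 * k + 1 := by rw [(dflt_child v).1]; omega
      refine ⟨dflt v, .si {q | 2 * k + 1 ≤ T.lev q ∧ anc (2 * k + 1) q = dflt v}, ?_,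
        dflt_child v, ?_⟩
      · refine ⟨hl, ?_, ?_, ?_, ?_, ?_⟩
        · exact ⟨hl.ge, anc_of_le hl.le⟩
        · intro q hq; exact hq
        · intro q hq hq2
          exact ⟨by rw [T.lev_par]; omega, by rw [anc_par hq2]; exact hq.2⟩
        · intro q hq _ w hw
          exact mem_above hq.1 hq.2 hw
        · intro q hq _
          exact ⟨dflt q, mem_above hq.1 hq.2 (dflt_child q), dflt_child q⟩
      · unfold paux
        rw [if_pos (by omega), valid_non h' (by omega)]
    rcases Nat.lt_or_ge (2 * k + 1) (T.lev v) with c3 | c3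
    swap
    · have hl : T.lev v = 2 * k + 1 := by omega
      obtain ⟨e, hQ⟩ := valid_si h' hl
      generalize a.set = S at e hQ
      subst e
      by_cases hU : ∃ u ∈ S, u ∈ G ∧ 2 * k + 2 ≤ T.lev u
      · obtain ⟨u, hu1, hu2, hu3⟩ := hU
        have hlw : T.lev (anc (2 * k + 2) u) = 2 * k + 2 := lev_anc hu3
        have hpw : T.par (anc (2 * k + 2) u) = v := by
          rw [par_anc (by omega)]
          exact (hQ.above u hu1).2
        refine ⟨anc (2 * k + 2) u, .o1 S u, ⟨hlw.ge, ?_, hu1, hu2, hu3, ?_⟩, ⟨?_, hpw⟩, ?_⟩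
        · rw [anc_anc (by omega) hu3, (hQ.above u hu1).2]; exact hQ
        · rw [hlw]
          exact anc_of_le (by rw [hlw]; exact hu3)
        · rw [hlw, hl]
        · unfold paux
          rw [if_neg (by omega), if_pos hlw]
          rfl
      · have hlw : T.lev (dflt v) = 2 * k + 2 := by rw [(dflt_child v).1, hl]
        refine ⟨dflt v, .o2 S {q | q ∈ S ∧ 2 * k + 2 ≤ T.lev q ∧ anc (2 * k + 2) q = dflt v},
          ⟨hlw.ge, ?_, ⟨?_, ?_, ?_, ?_, ?_, ?_, ?_⟩, ?_⟩, dflt_child v, ?_⟩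
        · rw [anc_child (dflt_child v) (by omega), anc_of_le (by omega)]
          exact hQ
        · rw [anc_of_le (by omega)]
          exact ⟨hQ.opp v hQ.root (by omega) _ (dflt_child v), hlw.ge, anc_of_le (by omega)⟩
        · exact fun q hq => hq.1
        · intro q hq
          refine ⟨hq.2.1, ?_⟩
          rw [hq.2.2]
          exact (anc_of_le (by omega)).symm
        · intro q hq hq2
          exact ⟨hQ.par q hq.1 (by omega), by rw [T.lev_par]; omega, by
            rw [anc_par hq2]; exact hq.2.2⟩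
        · intro q hq _ w hw hwq
          exact ⟨hw, mem_above hq.2.1 hq.2.2 hwq⟩
        · intro q hq hq2
          exact ⟨dflt q, ⟨hQ.opp q hq.1 hq2 _ (dflt_child q),
            mem_above hq.2.1 hq.2.2 (dflt_child q)⟩, dflt_child q⟩
        · intro q hq hqG
          exact hU ⟨q, hq.1, hqG, hq.2.1⟩
        · exact ⟨hQ.opp v hQ.root (by omega) _ (dflt_child v), hlw.ge, anc_of_le (by omega)⟩
        · unfold paux
          rw [if_neg (by omega), if_pos hlw]
          rfl
    have hpaux : ∀ w, IsChild T w v → paux k w a = a := by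
      intro w hw
      unfold paux
      rw [if_neg (by rw [hw.1]; omega), if_neg (by rw [hw.1]; omega)]
    rcases valid_ge h' (by omega) with ⟨S, u, rfl⟩ | ⟨S, S', rfl⟩
    · obtain ⟨h3, h4, h5, h6, h7, h8⟩ := h'
      rcases Nat.lt_or_ge (T.lev v) (T.lev u) with c4 | c4
      · have hlw : T.lev (anc (T.lev v + 1) u) = T.lev v + 1 := lev_anc (by omega)
        have hpw : T.par (anc (T.lev v + 1) u) = v := by
          rw [par_anc (by omega), ← h8, anc_of_le (by omega)]
        have hch : IsChild T (anc (T.lev v + 1) u) v := ⟨hlw, hpw⟩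
        refine ⟨anc (T.lev v + 1) u, .o1 S u, ⟨by omega, ?_, h5, h6, h7, ?_⟩, hch,
          hpaux _ hch⟩
        · rw [anc_child hch (by omega)]; exact h4
        · rw [hlw]
          exact anc_of_le (by omega)
      · have hch := dflt_child v
        refine ⟨dflt v, .o1 S u, ⟨by rw [hch.1]; omega, ?_, h5, h6, h7, ?_⟩, hch,
          hpaux _ hch⟩
        · rw [anc_child hch (by omega)]; exact h4
        · rw [anc_child hch c4, h8, hch.1, anc_of_le c4, anc_of_le (by omega)]
    · obtain ⟨h3, h4, h5, h6⟩ := h'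
      have hw : ∃ w ∈ S', IsChild T w v := by
        rcases Nat.mod_two_eq_zero_or_one (T.lev v) with h0 | h0
        · obtain ⟨w, hw, hwv⟩ := h4.own v (h5.sub h6) h0
          exact ⟨w, h5.opp v h6 h0 w hw hwv, hwv⟩
        · exact h5.own v h6 h0
      obtain ⟨w, hw, hch⟩ := hw
      refine ⟨w, .o2 S S', ⟨by rw [hch.1]; omega, ?_, ?_, hw⟩, hch, hpaux _ hch⟩
      · rw [anc_child hch (by omega)]; exact h4
      · rw [anc_child hch (by omega)]; exact h5

/-- the projection -/
def unrπ (p : (unr G k).V) : T.V := p.1.1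

open Classical in
/-- the `T`-part of the move of `s` at `(v, a)` -/
def act (s : Strat (unr G k)) (v : T.V) (a : Aux T.V) : T.V :=
  if h : valid G k v a then (s ⟨(v, a), h⟩).1.1 else dflt v

open Classical in
/-- the auxiliary part of the move of `s` at `(v, a)` -/
def nxt (s : Strat (unr G k)) (v : T.V) (a : Aux T.V) : Aux T.V :=
  if h : valid G k v a then (s ⟨(v, a), h⟩).1.2 else .non

theorem child_fst {p q : (unr G k).V} (h : IsChild (unr G k) p q) : IsChild T p.1.1 q.1.1 :=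
  ⟨h.1, congrArg (fun z => z.1.1) h.2⟩

theorem child_snd {p q : (unr G k).V} (h : IsChild (unr G k) p q) :
    paux k p.1.1 p.1.2 = q.1.2 := congrArg (fun z => z.1.2) h.2

theorem act_child (s : Strat (unr G k)) (v : T.V) (a : Aux T.V) : IsChild T (act s v a) v := by
  unfold act
  by_cases h : valid G k v a
  · rw [dif_pos h]
    exact child_fst (s.child ⟨(v, a), h⟩)
  · rw [dif_neg h]
    exact dflt_child v

theorem act_nxt_valid (s : Strat (unr G k)) (h : valid G k v a) :
    valid G k (act s v a) (nxt s v a) := by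
  unfold act nxt
  rw [dif_pos h, dif_pos h]
  exact (s ⟨(v, a), h⟩).2

theorem act_nxt_paux (s : Strat (unr G k)) (h : valid G k v a) :
    paux k (act s v a) (nxt s v a) = a := by
  unfold act nxt
  rw [dif_pos h, dif_pos h]
  exact child_snd (s.child ⟨(v, a), h⟩)

theorem act_nxt_eq (s : Strat (unr G k)) (h : valid G k v a) :
    (s ⟨(v, a), h⟩).1 = (act s v a, nxt s v a) := by
  unfold act nxt
  rw [dif_pos h, dif_pos h]

theorem act_local {s s' : Strat (unr G k)} {n : ℕ}
    (h : ∀ p, (unr G k).lev p ≤ n → s p = s' p) (hv : T.lev v ≤ n) : act s v = act s' v := by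
  funext a
  unfold act
  by_cases h1 : valid G k v a
  · rw [dif_pos h1, dif_pos h1, h ⟨(v, a), h1⟩ hv]
  · rw [dif_neg h1, dif_neg h1]

theorem nxt_local {s s' : Strat (unr G k)} {n : ℕ}
    (h : ∀ p, (unr G k).lev p ≤ n → s p = s' p) (hv : T.lev v ≤ n) : nxt s v = nxt s' v := by
  funext a
  unfold nxt
  by_cases h1 : valid G k v a
  · rw [dif_pos h1, dif_pos h1, h ⟨(v, a), h1⟩ hv]
  · rw [dif_neg h1, dif_neg h1]

/-- the canonical quasi-strategy for the second player -/
def Sii (G : Set T.V) (k : ℕ) (S : Set T.V) (r : T.V) : Set T.V :=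
  {q | q ∈ S ∧ 2 * k + 2 ≤ T.lev q ∧ anc (2 * k + 2) q = r ∧
    ∀ n, 2 * k + 2 ≤ n → n ≤ T.lev q → ¬ Reach S (S ∩ G) 0 (anc n q)}

theorem Sii_spec {S : Set T.V} {r1 r : T.V} (hQ : QI k S r1) (hr : IsChild T r r1)
    (hl : T.lev r1 = 2 * k + 1) (hR : ¬ Reach S (S ∩ G) 0 r) : QII G k (Sii G k S r) S r := by
  have hl2 : T.lev r = 2 * k + 2 := by rw [hr.1, hl]
  have step : ∀ q ∈ Sii G k S r, ∀ w ∈ S, IsChild T w q → ¬ Reach S (S ∩ G) 0 w →
      w ∈ Sii G k S r := by
    intro q hq w hw hwq hwR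
    have hab := mem_above hq.2.1 hq.2.2.1 hwq
    refine ⟨hw, hab.1, hab.2, fun n hn1 hn2 => ?_⟩
    rcases Nat.lt_or_ge n (T.lev w) with h1 | h1
    · rw [anc_child hwq (by rw [hwq.1] at h1; omega)]
      exact hq.2.2.2 n hn1 (by rw [hwq.1] at h1; omega)
    · rw [anc_of_le h1]; exact hwR
  refine ⟨?_, fun q hq => hq.1, fun q hq => ⟨hq.2.1, hq.2.2.1⟩, ?_, ?_, ?_, ?_⟩
  · refine ⟨hQ.opp r1 hQ.root (by omega) r hr, hl2.ge, anc_of_le hl2.le, fun n hn1 hn2 => ?_⟩
    rw [anc_of_le (by omega)]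
    exact hR
  · intro q hq hq2
    refine ⟨hQ.par q hq.1 (by omega), by rw [T.lev_par]; omega, by
      rw [anc_par hq2]; exact hq.2.2.1, fun n hn1 hn2 => ?_⟩
    rw [T.lev_par] at hn2
    rw [anc_par (by omega)]
    exact hq.2.2.2 n hn1 (by omega)
  · intro q hq hq2 w hw hwq
    refine step q hq w hw hwq fun hwR => ?_
    have := hq.2.2.2 (T.lev q) hq.2.1 le_rfl
    rw [anc_self] at this
    exact this (Reach.own q w (by simpa using hq2) hw hwq hwR)
  · intro q hq hq2
    have h1 := hq.2.2.2 (T.lev q) hq.2.1 le_rfl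
    rw [anc_self] at h1
    have h2 : ∃ w, IsChild T w q ∧ ¬ Reach S (S ∩ G) 0 w := by
      by_contra hcon
      push Not at hcon
      exact h1 (Reach.opp q (by simp [hq2]) hcon)
    obtain ⟨w, hw, hwR⟩ := h2
    have hwS := hQ.opp q hq.1 hq2 w hw
    exact ⟨w, step q hq w hwS hw hwR, hw⟩
  · intro q hq hqG
    have h1 := hq.2.2.2 (T.lev q) hq.2.1 le_rfl
    rw [anc_self] at h1
    exact h1 (Reach.base q ⟨hq.1, hqG⟩)

/-- the canonical quasi-strategy for the first player -/
def Sst (k : ℕ) (U : Set T.V) (r : T.V) : Set T.V :=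
  {q | 2 * k + 1 ≤ T.lev q ∧ anc (2 * k + 1) q = r ∧
    ∀ n, 2 * k + 1 ≤ n → n ≤ T.lev q → ¬ Reach Set.univ U 1 (anc n q)}

theorem Sst_spec {U : Set T.V} {r : T.V} (hl : T.lev r = 2 * k + 1)
    (hR : ¬ Reach Set.univ U 1 r) : QI k (Sst k U r) r := by
  have step : ∀ q ∈ Sst k U r, ∀ w, IsChild T w q → ¬ Reach Set.univ U 1 w →
      w ∈ Sst k U r := by
    intro q hq w hwq hwR
    have hab := mem_above hq.1 hq.2.1 hwq
    refine ⟨hab.1, hab.2, fun n hn1 hn2 => ?_⟩
    rcases Nat.lt_or_ge n (T.lev w) with h1 | h1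
    · rw [anc_child hwq (by rw [hwq.1] at h1; omega)]
      exact hq.2.2 n hn1 (by rw [hwq.1] at h1; omega)
    · rw [anc_of_le h1]; exact hwR
  refine ⟨?_, fun q hq => ⟨hq.1, hq.2.1⟩, ?_, ?_, ?_⟩
  · refine ⟨hl.ge, anc_of_le hl.le, fun n hn1 hn2 => ?_⟩
    rw [anc_of_le (by omega)]
    exact hR
  · intro q hq hq2
    refine ⟨by rw [T.lev_par]; omega, by
      rw [anc_par hq2]; exact hq.2.1, fun n hn1 hn2 => ?_⟩
    rw [T.lev_par] at hn2
    rw [anc_par (by omega)]
    exact hq.2.2 n hn1 (by omega)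
  · intro q hq hq2 w hwq
    refine step q hq w hwq fun hwR => ?_
    have := hq.2.2 (T.lev q) hq.1 le_rfl
    rw [anc_self] at this
    exact this (Reach.own q w (by simpa using hq2) (Set.mem_univ _) hwq hwR)
  · intro q hq hq2
    have h1 := hq.2.2 (T.lev q) hq.1 le_rfl
    rw [anc_self] at h1
    have h2 : ∃ w, IsChild T w q ∧ ¬ Reach Set.univ U 1 w := by
      by_contra hcon
      push Not at hcon
      exact h1 (Reach.opp q (by simp [hq2]) hcon)
    obtain ⟨w, hw, hwR⟩ := h2
    exact ⟨w, step q hq w hw hwR, hw⟩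

open Classical in
/-- transfer for the first player -/
def F0 (G : Set T.V) (k : ℕ) (v : T.V) (S : Set T.V) (f : Aux T.V → T.V) : T.V :=
  if T.lev v ≤ 2 * k then f .non
  else if h1 : ∃ n, 2 * k + 2 ≤ n ∧ n ≤ T.lev v ∧ anc n v ∈ S ∩ G then
    f (.o1 S (anc (Nat.find h1) v))
  else if h2 : ∃ n, 2 * k + 2 ≤ n ∧ n ≤ T.lev v ∧ Reach S (S ∩ G) 0 (anc n v) then
    rstrat S (S ∩ G) 0 (anc (Nat.find h2) v) v
  else f (.o2 S (Sii G k S (anc (2 * k + 2) v)))

theorem F0_child {S : Set T.V} {f : Aux T.V → T.V} (hf : ∀ a, IsChild T (f a) v) :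
    IsChild T (F0 G k v S f) v := by
  unfold F0
  split_ifs
  · exact hf _
  · exact hf _
  · exact Strat.child _ _
  · exact hf _

open Classical in
/-- transfer for the second player -/
def F1 (k : ℕ) (v : T.V) (g : Aux T.V → Aux T.V) (f : Aux T.V → T.V) : T.V :=
  if T.lev v ≤ 2 * k then f .non
  else if h1 : ∃ n, 2 * k + 1 ≤ n ∧ n ≤ T.lev v ∧ ∃ S, g (.si S) = .o1 S (anc n v) then
    f (.o1 (Nat.find_spec h1).2.2.choose (anc (Nat.find h1) v))
  else if h2 : ∃ n, 2 * k + 1 ≤ n ∧ n ≤ T.lev v ∧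
      Reach Set.univ {u | ∃ S, g (.si S) = .o1 S u} 1 (anc n v) then
    rstrat Set.univ {u | ∃ S, g (.si S) = .o1 S u} 1 (anc (Nat.find h2) v) v
  else if T.lev v = 2 * k + 1 then
    f (.si (Sst k {u | ∃ S, g (.si S) = .o1 S u} (anc (2 * k + 1) v)))
  else f (g (.si (Sst k {u | ∃ S, g (.si S) = .o1 S u} (anc (2 * k + 1) v))))

theorem F1_child {g : Aux T.V → Aux T.V} {f : Aux T.V → T.V} (hf : ∀ a, IsChild T (f a) v) :
    IsChild T (F1 k v g f) v := by
  unfold F1
  split_ifs
  · exact hf _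
  · exact hf _
  · exact Strat.child _ _
  · exact hf _
  · exact hf _

/-- a branch through the unraveled tree -/
def mkBody (x : Body T) (a : ℕ → Aux T.V) (h : ∀ n, valid G k (x n) (a n))
    (hp : ∀ n, paux k (x (n + 1)) (a (n + 1)) = a n) : Body (unr G k) :=
  ⟨fun n => ⟨(x n, a n), h n⟩, fun n => ⟨x.lev n, by
    apply Subtype.ext
    exact Prod.ext (x.par n) (hp n)⟩⟩

/-- the standard sequence of auxiliary moves -/
def auxSeq (k : ℕ) (S : Set T.V) (a : Aux T.V) (n : ℕ) : Aux T.V :=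
  if n ≤ 2 * k then .non else if n = 2 * k + 1 then .si S else a

theorem auxSeq_paux (x : Body T) (S : Set T.V) (a : Aux T.V) (ha : a.set = S) (n : ℕ) :
    paux k (x (n + 1)) (auxSeq k S a (n + 1)) = auxSeq k S a n := by
  unfold paux auxSeq
  rw [x.lev]
  by_cases h1 : n ≤ 2 * k
  · rw [if_pos (by omega), if_pos h1]
  by_cases h2 : n = 2 * k + 1
  · rw [if_neg (by omega), if_pos (by omega), if_neg (by omega), if_neg (by omega), if_neg h1,
      if_pos h2, ha]
  · rw [if_neg (by omega), if_neg (by omega), if_neg (by omega), if_neg (by omega), if_neg h1,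
      if_neg h2]

theorem body_compat (x : Body T) (n m : ℕ) :
    anc (T.lev (x n)) (x m) = anc (T.lev (x m)) (x n) := by
  rw [x.lev, x.lev]
  rcases Nat.le_total n m with h | h
  · rw [anc_body x h, anc_of_le (by rw [x.lev]; exact h)]
  · rw [anc_body x h, anc_of_le (by rw [x.lev]; exact h)]

/-- validity of the standard sequence, option 1 -/
theorem valid_o1 (x : Body T) {S : Set T.V} (hQ : QI k S (x (2 * k + 1))) {m : ℕ}
    (hm : 2 * k + 2 ≤ m) (hS : x m ∈ S) (hG : x m ∈ G) (n : ℕ) :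
    valid G k (x n) (auxSeq k S (.o1 S (x m)) n) := by
  unfold auxSeq
  by_cases h1 : n ≤ 2 * k
  · rw [if_pos h1]
    change T.lev (x n) ≤ 2 * k
    rw [x.lev]; exact h1
  by_cases h2 : n = 2 * k + 1
  · subst h2
    rw [if_neg h1, if_pos rfl]
    exact ⟨x.lev _, hQ⟩
  · rw [if_neg h1, if_neg h2]
    refine ⟨by rw [x.lev]; omega, ?_, hS, hG, by rw [x.lev]; exact hm, body_compat x m n⟩
    rw [anc_body x (by omega)]
    exact hQ

/-- validity of the standard sequence, option 2 -/
theorem valid_o2 (x : Body T) {S S' : Set T.V} (hQ : QI k S (x (2 * k + 1)))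
    (hQ2 : QII G k S' S (x (2 * k + 2))) {n : ℕ} (hm : 2 * k + 2 ≤ n → x n ∈ S') :
    valid G k (x n) (auxSeq k S (.o2 S S') n) := by
  unfold auxSeq
  by_cases h1 : n ≤ 2 * k
  · rw [if_pos h1]
    change T.lev (x n) ≤ 2 * k
    rw [x.lev]; exact h1
  by_cases h2 : n = 2 * k + 1
  · subst h2
    rw [if_neg h1, if_pos rfl]
    exact ⟨x.lev _, hQ⟩
  · rw [if_neg h1, if_neg h2]
    refine ⟨by rw [x.lev]; omega, ?_, ?_, hm (by omega)⟩
    · rw [anc_body x (by omega)]
      exact hQ
    · rw [anc_body x (by omega)]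
      exact hQ2

/-- consistency criterion for standard branches -/
theorem cons_std (x : Body T) {S : Set T.V} {a : Aux T.V} (ha : a.set = S)
    (h : ∀ n, valid G k (x n) (auxSeq k S a n)) (i : Fin 2) (s : Strat (unr G k))
    (h1 : ∀ n, n % 2 = (i : ℕ) → act s (x n) (auxSeq k S a n) = x (n + 1))
    (h2 : (i : ℕ) = 0 → nxt s (x (2 * k)) .non = .si S)
    (h3 : (i : ℕ) = 1 → nxt s (x (2 * k + 1)) (.si S) = a) :
    Cons i s (mkBody x _ h (auxSeq_paux x S a ha)) := by
  intro n hn
  apply Subtype.ext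
  change (x (n + 1), auxSeq k S a (n + 1)) = (s ⟨(x n, auxSeq k S a n), h n⟩).1
  rw [act_nxt_eq, h1 n hn]
  refine congrArg (Prod.mk _) ?_
  have hv := act_nxt_valid s (h n)
  have hp := act_nxt_paux s (h n)
  rw [h1 n hn] at hv hp
  rcases Nat.lt_or_ge n (2 * k) with c1 | c1
  · rw [valid_non hv (by rw [x.lev]; omega)]
    unfold auxSeq
    rw [if_pos (by omega)]
  rcases Nat.lt_or_ge (2 * k + 1) n with c2 | c2
  · unfold paux at hp
    rw [if_neg (by rw [x.lev]; omega), if_neg (by rw [x.lev]; omega)] at hp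
    rw [hp]
    unfold auxSeq
    rw [if_neg (by omega), if_neg (by omega), if_neg (by omega), if_neg (by omega)]
  have hi := i.2
  by_cases c3 : n = 2 * k
  · subst c3
    have e1 : auxSeq k S a (2 * k) = .non := by unfold auxSeq; rw [if_pos le_rfl]
    have e2 : auxSeq k S a (2 * k + 1) = .si S := by
      unfold auxSeq; rw [if_neg (by omega), if_pos rfl]
    rw [e1, e2, h2 (by omega)]
  · have c4 : n = 2 * k + 1 := by omega
    subst c4
    have e1 : auxSeq k S a (2 * k + 1) = .si S := by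
      unfold auxSeq; rw [if_neg (by omega), if_pos rfl]
    have e2 : auxSeq k S a (2 * k + 1 + 1) = a := by
      unfold auxSeq; rw [if_neg (by omega), if_neg (by omega)]
    rw [e1, e2, h3 (by omega)]

/-- before reaching `u` all moves are forced -/
theorem act_forced (x : Body T) (s : Strat (unr G k)) {S : Set T.V} {m n : ℕ}
    (h : valid G k (x n) (.o1 S (x m))) (hn : n < m) :
    act s (x n) (.o1 S (x m)) = x (n + 1) := by
  have hv := act_nxt_valid s h
  have hp := act_nxt_paux s h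
  have hc := act_child s (x n) (.o1 S (x m))
  have hl : T.lev (act s (x n) (.o1 S (x m))) = n + 1 := by rw [hc.1, x.lev]
  have hn2 : 2 * k + 2 ≤ n := by have := h.1; rwa [x.lev] at this
  unfold paux at hp
  rw [if_neg (by omega), if_neg (by omega)] at hp
  rw [hp] at hv
  have h8 := hv.2.2.2.2.2
  rw [hl, x.lev, anc_of_le (by omega), anc_body x (by omega)] at h8
  exact h8

end Pool.Agent.H71.BD
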