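import Pool.Agent.H71.BD.Closed

set_option autoImplicit false

/-!
# Unraveling open sets: the covering
-/

noncomputable section

namespace Pool.Agent.H71.BD

universe u

variable {T : GTree.{u}} {G : Set T.V} {k : ℕ}

theorem lev_anc_le (n : ℕ) (v : T.V) : T.lev (anc n v) ≤ T.lev v := by
  unfold anc
  rw [lev_iterate]
  omega

theorem F0_le {v : T.V} {S : Set T.V} {f : Aux T.V → T.V} (h : T.lev v ≤ 2 * k) :
    F0 G k v S f = f .non := by
  unfold F0
  rw [if_pos h]

theorem F0_o1 (x : Body T) {S : Set T.V} {f : Aux T.V → T.V} {m n : ℕ} (h1 : 2 * k + 2 ≤ m)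
    (h2 : m ≤ n) (h3 : x m ∈ S ∩ G) (h4 : ∀ j < m, 2 * k + 2 ≤ j → x j ∉ S ∩ G) :
    F0 G k (x n) S f = f (.o1 S (x m)) := by
  classical
  unfold F0
  have hP : ∃ j, 2 * k + 2 ≤ j ∧ j ≤ T.lev (x n) ∧ anc j (x n) ∈ S ∩ G :=
    ⟨m, h1, by rw [x.lev]; exact h2, by rw [anc_body x h2]; exact h3⟩
  rw [if_neg (by rw [x.lev]; omega), dif_pos hP]
  have hf : Nat.find hP = m := by
    rw [Nat.find_eq_iff]
    refine ⟨⟨h1, by rw [x.lev]; exact h2, by rw [anc_body x h2]; exact h3⟩, ?_⟩
    rintro j hj ⟨h5, _, h7⟩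
    rw [anc_body x (by omega)] at h7
    exact h4 j hj h5 h7
  rw [hf, anc_body x h2]

theorem F0_reach (x : Body T) {S : Set T.V} {f : Aux T.V → T.V} {m n : ℕ} (h1 : 2 * k + 2 ≤ m)
    (h2 : m ≤ n) (h3 : Reach S (S ∩ G) 0 (x m)) (h4 : ∀ j < m, 2 * k + 2 ≤ j →
      ¬ Reach S (S ∩ G) 0 (x j)) (h5 : ∀ j ≤ n, 2 * k + 2 ≤ j → x j ∉ S ∩ G) :
    F0 G k (x n) S f = rstrat S (S ∩ G) 0 (x m) (x n) := by
  classical
  unfold F0
  have hP1 : ¬ ∃ j, 2 * k + 2 ≤ j ∧ j ≤ T.lev (x n) ∧ anc j (x n) ∈ S ∩ G := by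
    rintro ⟨j, a1, a2, a3⟩
    rw [x.lev] at a2
    rw [anc_body x a2] at a3
    exact h5 j a2 a1 a3
  have hP : ∃ j, 2 * k + 2 ≤ j ∧ j ≤ T.lev (x n) ∧ Reach S (S ∩ G) 0 (anc j (x n)) :=
    ⟨m, h1, by rw [x.lev]; exact h2, by rw [anc_body x h2]; exact h3⟩
  rw [if_neg (by rw [x.lev]; omega), dif_neg hP1, dif_pos hP]
  have hf : Nat.find hP = m := by
    rw [Nat.find_eq_iff]
    refine ⟨⟨h1, by rw [x.lev]; exact h2, by rw [anc_body x h2]; exact h3⟩, ?_⟩
    rintro j hj ⟨h5, _, h7⟩
    rw [anc_body x (by omega)] at h7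
    exact h4 j hj h5 h7
  rw [hf, anc_body x h2]

theorem F0_o2 (x : Body T) {S : Set T.V} {f : Aux T.V → T.V} {n : ℕ} (h1 : 2 * k + 2 ≤ n)
    (h4 : ∀ j ≤ n, 2 * k + 2 ≤ j → ¬ Reach S (S ∩ G) 0 (x j)) :
    F0 G k (x n) S f = f (.o2 S (Sii G k S (x (2 * k + 2)))) := by
  classical
  unfold F0
  have hP1 : ¬ ∃ j, 2 * k + 2 ≤ j ∧ j ≤ T.lev (x n) ∧ anc j (x n) ∈ S ∩ G := by
    rintro ⟨j, a1, a2, a3⟩
    rw [x.lev] at a2
    rw [anc_body x a2] at a3
    exact h4 j a2 a1 (Reach.base _ a3)
  have hP : ¬ ∃ j, 2 * k + 2 ≤ j ∧ j ≤ T.lev (x n) ∧ Reach S (S ∩ G) 0 (anc j (x n)) := by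
    rintro ⟨j, a1, a2, a3⟩
    rw [x.lev] at a2
    rw [anc_body x a2] at a3
    exact h4 j a2 a1 a3
  rw [if_neg (by rw [x.lev]; omega), dif_neg hP1, dif_neg hP, anc_body x h1]

/-- the target set for the second player -/
def U1 (g : Aux T.V → Aux T.V) : Set T.V := {u | ∃ S, g (.si S) = .o1 S u}

theorem F1_le {v : T.V} {g : Aux T.V → Aux T.V} {f : Aux T.V → T.V} (h : T.lev v ≤ 2 * k) :
    F1 k v g f = f .non := by
  unfold F1
  rw [if_pos h]

theorem F1_o1 (x : Body T) {g : Aux T.V → Aux T.V} {m : ℕ} (h1 : 2 * k + 1 ≤ m)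
    (h3 : x m ∈ U1 g) (h4 : ∀ j < m, 2 * k + 1 ≤ j → x j ∉ U1 g) :
    ∃ S, g (.si S) = .o1 S (x m) ∧ ∀ n, m ≤ n → ∀ (f : Aux T.V → T.V),
      F1 k (x n) g f = f (.o1 S (x m)) := by
  classical
  refine ⟨h3.choose, h3.choose_spec, fun n h2 f => ?_⟩
  unfold F1
  have hP : ∃ j, 2 * k + 1 ≤ j ∧ j ≤ T.lev (x n) ∧ ∃ S, g (.si S) = .o1 S (anc j (x n)) :=
    ⟨m, h1, by rw [x.lev]; exact h2, by rw [anc_body x h2]; exact h3⟩
  rw [if_neg (by rw [x.lev]; omega), dif_pos hP]
  have hf : Nat.find hP = m := by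
    rw [Nat.find_eq_iff]
    refine ⟨⟨h1, by rw [x.lev]; exact h2, by rw [anc_body x h2]; exact h3⟩, ?_⟩
    rintro j hj ⟨h5, _, h7⟩
    rw [anc_body x (by omega)] at h7
    exact h4 j hj h5 h7
  have e : anc (Nat.find hP) (x n) = x m := by rw [hf, anc_body x h2]
  have key : ∀ (u : T.V) (hu : ∃ S, g (.si S) = .o1 S u) (_ : u = x m),
      f (.o1 hu.choose u) = f (.o1 h3.choose (x m)) := by
    rintro u hu rfl
    rfl
  exact key _ (Nat.find_spec hP).2.2 e

theorem F1_reach (x : Body T) {g : Aux T.V → Aux T.V} {f : Aux T.V → T.V} {m n : ℕ}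
    (h1 : 2 * k + 1 ≤ m)
    (h2 : m ≤ n) (h3 : Reach Set.univ (U1 g) 1 (x m)) (h4 : ∀ j < m, 2 * k + 1 ≤ j →
      ¬ Reach Set.univ (U1 g) 1 (x j)) (h5 : ∀ j ≤ n, 2 * k + 1 ≤ j → x j ∉ U1 g) :
    F1 k (x n) g f = rstrat Set.univ (U1 g) 1 (x m) (x n) := by
  classical
  unfold F1
  have hP1 : ¬ ∃ j, 2 * k + 1 ≤ j ∧ j ≤ T.lev (x n) ∧ ∃ S, g (.si S) = .o1 S (anc j (x n)) := by
    rintro ⟨j, a1, a2, a3⟩
    rw [x.lev] at a2
    rw [anc_body x a2] at a3
    exact h5 j a2 a1 a3
  have hP : ∃ j, 2 * k + 1 ≤ j ∧ j ≤ T.lev (x n) ∧ Reach Set.univ (U1 g) 1 (anc j (x n)) :=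
    ⟨m, h1, by rw [x.lev]; exact h2, by rw [anc_body x h2]; exact h3⟩
  rw [if_neg (by rw [x.lev]; omega), dif_neg hP1]
  unfold U1 at hP
  rw [dif_pos hP]
  have hf : Nat.find hP = m := by
    rw [Nat.find_eq_iff]
    refine ⟨⟨h1, by rw [x.lev]; exact h2, by rw [anc_body x h2]; exact h3⟩, ?_⟩
    rintro j hj ⟨h5, _, h7⟩
    rw [anc_body x (by omega)] at h7
    exact h4 j hj h5 h7
  rw [hf, anc_body x h2]
  rfl

theorem F1_o2 (x : Body T) {g : Aux T.V → Aux T.V} {f : Aux T.V → T.V} {n : ℕ}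
    (h1 : 2 * k + 1 ≤ n)
    (h4 : ∀ j ≤ n, 2 * k + 1 ≤ j → ¬ Reach Set.univ (U1 g) 1 (x j)) :
    F1 k (x n) g f = if n = 2 * k + 1 then f (.si (Sst k (U1 g) (x (2 * k + 1))))
      else f (g (.si (Sst k (U1 g) (x (2 * k + 1))))) := by
  classical
  unfold F1
  have hP1 : ¬ ∃ j, 2 * k + 1 ≤ j ∧ j ≤ T.lev (x n) ∧ ∃ S, g (.si S) = .o1 S (anc j (x n)) := by
    rintro ⟨j, a1, a2, a3⟩
    rw [x.lev] at a2
    rw [anc_body x a2] at a3
    exact h4 j a2 a1 (Reach.base _ a3)
  have hP : ¬ ∃ j, 2 * k + 1 ≤ j ∧ j ≤ T.lev (x n) ∧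
      Reach Set.univ (U1 g) 1 (anc j (x n)) := by
    rintro ⟨j, a1, a2, a3⟩
    rw [x.lev] at a2
    rw [anc_body x a2] at a3
    exact h4 j a2 a1 a3
  rw [if_neg (by rw [x.lev]; omega), dif_neg hP1]
  unfold U1 at hP
  rw [dif_neg hP, anc_body x h1, x.lev]
  rfl

open Classical in
/-- strategy transfer -/
def unrφ (i : Fin 2) (s : Strat (unr G k)) : Strat T :=
  ⟨fun v => if i = 0 then F0 G k v (nxt s (anc (2 * k) v) .non).set (act s v)
     else F1 k v (nxt s (anc (2 * k + 1) v)) (act s v), fun v => by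
    by_cases hi : i = 0
    · simp only [if_pos hi]
      exact F0_child (act_child s v)
    · simp only [if_neg hi]
      exact F1_child (act_child s v)⟩

theorem unrφ_zero (s : Strat (unr G k)) (v : T.V) :
    unrφ 0 s v = F0 G k v (nxt s (anc (2 * k) v) .non).set (act s v) := by
  have h : ((0 : Fin 2) = 0) = True := by simp
  change (if (0 : Fin 2) = 0 then F0 G k v (nxt s (anc (2 * k) v) .non).set (act s v)
     else F1 k v (nxt s (anc (2 * k + 1) v)) (act s v)) = _
  exact if_pos rfl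

theorem unrφ_one (s : Strat (unr G k)) (v : T.V) :
    unrφ 1 s v = F1 k v (nxt s (anc (2 * k + 1) v)) (act s v) := by
  change (if (1 : Fin 2) = 0 then F0 G k v (nxt s (anc (2 * k) v) .non).set (act s v)
     else F1 k v (nxt s (anc (2 * k + 1) v)) (act s v)) = _
  exact if_neg (by simp)

theorem lift_zero (s : Strat (unr G k)) (x : Body T) (hx : Cons 0 (unrφ 0 s) x) :
    ∃ y : Body (unr G k), Cons 0 s y ∧ ∀ n, unrπ (y n) = x n := by
  classical
  have hx1 : ∀ n, n % 2 = 0 → n ≤ 2 * k → act s (x n) .non = x (n + 1) := by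
    intro n hn hn2
    rw [hx n hn, unrφ_zero, F0_le (by rw [x.lev]; exact hn2)]
  have hv0 : valid G k (x (2 * k)) .non := (x.lev (2 * k)).le
  have hv1 := act_nxt_valid s hv0
  rw [hx1 (2 * k) (by omega) le_rfl] at hv1
  obtain ⟨hS, hQ⟩ := valid_si hv1 (x.lev _)
  set S : Set T.V := (nxt s (x (2 * k)) .non).set with hSdef
  have hx2 : ∀ n, n % 2 = 0 → 2 * k ≤ n → x (n + 1) = F0 G k (x n) S (act s (x n)) := by
    intro n hn hn2
    rw [hx n hn, unrφ_zero, anc_body x hn2]
  by_cases h1 : ∃ n, 2 * k + 2 ≤ n ∧ x n ∈ S ∩ G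
  · set m := Nat.find h1 with hm
    have hm1 := (Nat.find_spec h1).1
    have hm2 := (Nat.find_spec h1).2
    rw [← hm] at hm1 hm2
    have hm3 : ∀ j < m, 2 * k + 2 ≤ j → x j ∉ S ∩ G := fun j hj hj2 hj3 =>
      Nat.find_min h1 hj ⟨hj2, hj3⟩
    have hval := valid_o1 x hQ hm1 hm2.1 hm2.2
    refine ⟨mkBody x _ hval (auxSeq_paux x S (.o1 S (x m)) rfl), ?_, fun n => rfl⟩
    refine cons_std (S := S) (a := .o1 S (x m)) x rfl hval 0 s ?_ (fun _ => hS)
      (fun h => by simp at h)
    intro n hn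
    have hn' : n % 2 = 0 := by simpa using hn
    rcases Nat.lt_or_ge (2 * k) n with c | c
    · have e : auxSeq k S (.o1 S (x m)) n = .o1 S (x m) := by
        unfold auxSeq
        rw [if_neg (by omega), if_neg (by omega)]
      have hvn := hval n
      rw [e] at hvn ⊢
      rcases Nat.lt_or_ge n m with c2 | c2
      · exact act_forced x s hvn c2
      · rw [hx2 n hn' c.le, F0_o1 x hm1 c2 hm2 hm3]
    · have e : auxSeq k S (.o1 S (x m)) n = .non := by
        unfold auxSeq
        rw [if_pos c]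
      rw [e]
      exact hx1 n hn' c
  · push Not at h1
    have hR : ∀ n, 2 * k + 2 ≤ n → ¬ Reach S (S ∩ G) 0 (x n) := by
      by_contra hcon
      push Not at hcon
      set m := Nat.find hcon with hm
      have hm1 := (Nat.find_spec hcon).1
      have hm2 := (Nat.find_spec hcon).2
      rw [← hm] at hm1 hm2
      have hm3 : ∀ j < m, 2 * k + 2 ≤ j → ¬ Reach S (S ∩ G) 0 (x j) := fun j hj hj2 hj3 =>
        Nat.find_min hcon hj ⟨hj2, hj3⟩
      obtain ⟨n, hn, hxn⟩ := rstrat_spec hm2 x (by rw [x.lev]) (by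
        intro n hn hni
        rw [x.lev] at hn
        have hni' : n % 2 = 0 := by simpa using hni
        rw [hx2 n hni' (by omega)]
        exact F0_reach x hm1 hn hm2 hm3 (fun j _ hj => h1 j hj))
      rw [x.lev] at hn
      exact h1 n (by omega) hxn
    have hch : IsChild T (x (2 * k + 2)) (x (2 * k + 1)) := x.child _
    have hQ2 := Sii_spec (G := G) hQ hch (x.lev _) (hR _ le_rfl)
    set S' := Sii G k S (x (2 * k + 2)) with hS'
    have hF : ∀ n, n % 2 = 0 → 2 * k + 2 ≤ n → x (n + 1) = act s (x n) (.o2 S S') := by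
      intro n hn hn2
      rw [hx2 n hn (by omega), F0_o2 x hn2 (fun j _ hj => hR j hj)]
    have hmem : ∀ n, 2 * k + 2 ≤ n → x n ∈ S' := by
      intro n hn
      induction n, hn using Nat.le_induction with
      | base => exact hQ2.root
      | succ n hn ih =>
        rcases Nat.mod_two_eq_zero_or_one n with h0 | h0
        · have hvn := valid_o2 x hQ hQ2 (n := n) (fun _ => ih)
          have e : auxSeq k S (.o2 S S') n = .o2 S S' := by
            unfold auxSeq
            rw [if_neg (by omega), if_neg (by omega)]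
          rw [e] at hvn
          have hv := act_nxt_valid s hvn
          have hp := act_nxt_paux s hvn
          rw [← hF n h0 hn] at hv hp
          unfold paux at hp
          rw [if_neg (by rw [x.lev]; omega), if_neg (by rw [x.lev]; omega)] at hp
          rw [hp] at hv
          exact hv.2.2.2
        · have hxS : x (n + 1) ∈ S := hQ.opp _ (hQ2.sub ih) (by rw [x.lev]; exact h0) _ (x.child n)
          rw [hS']
          refine ⟨hxS, by rw [x.lev]; omega, anc_body x (by omega), fun j hj1 hj2 => ?_⟩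
          rw [x.lev] at hj2
          rw [anc_body x hj2]
          exact hR j hj1
    have hval : ∀ n, valid G k (x n) (auxSeq k S (.o2 S S') n) := fun n =>
      valid_o2 x hQ hQ2 (hmem n)
    refine ⟨mkBody x _ hval (auxSeq_paux x S (.o2 S S') rfl), ?_, fun n => rfl⟩
    refine cons_std (S := S) (a := .o2 S S') x rfl hval 0 s ?_ (fun _ => hS)
      (fun h => by simp at h)
    intro n hn
    have hn' : n % 2 = 0 := by simpa using hn
    rcases Nat.lt_or_ge (2 * k) n with c | c
    · have e : auxSeq k S (.o2 S S') n = .o2 S S' := by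
        unfold auxSeq
        rw [if_neg (by omega), if_neg (by omega)]
      rw [e]
      exact (hF n hn' (by omega)).symm
    · have e : auxSeq k S (.o2 S S') n = .non := by
        unfold auxSeq
        rw [if_pos c]
      rw [e]
      exact hx1 n hn' c

theorem lift_one (s : Strat (unr G k)) (x : Body T) (hx : Cons 1 (unrφ 1 s) x) :
    ∃ y : Body (unr G k), Cons 1 s y ∧ ∀ n, unrπ (y n) = x n := by
  classical
  have hx1 : ∀ n, n % 2 = 1 → n ≤ 2 * k → act s (x n) .non = x (n + 1) := by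
    intro n hn hn2
    rw [hx n hn, unrφ_one, F1_le (by rw [x.lev]; exact hn2)]
  set g := nxt s (x (2 * k + 1)) with hg
  have hx2 : ∀ n, n % 2 = 1 → 2 * k + 1 ≤ n → x (n + 1) = F1 k (x n) g (act s (x n)) := by
    intro n hn hn2
    rw [hx n hn, unrφ_one, anc_body x hn2]
  have hgv : ∀ S b, g (.si S) = b → b ≠ .non → QI k S (x (2 * k + 1)) ∧
      valid G k (act s (x (2 * k + 1)) (.si S)) b ∧
      paux k (act s (x (2 * k + 1)) (.si S)) b = .si S := by
    intro S b h hb
    have hv : valid G k (x (2 * k + 1)) (.si S) := by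
      by_contra hcon
      apply hb
      rw [← h, hg]
      unfold nxt
      rw [dif_neg hcon]
    refine ⟨hv.2, ?_, ?_⟩
    · rw [← h]; exact act_nxt_valid s hv
    · rw [← h]; exact act_nxt_paux s hv
  by_cases h1 : ∃ n, 2 * k + 1 ≤ n ∧ x n ∈ U1 g
  · set m := Nat.find h1 with hm
    have hm1 := (Nat.find_spec h1).1
    have hm2 := (Nat.find_spec h1).2
    rw [← hm] at hm1 hm2
    have hm3 : ∀ j < m, 2 * k + 1 ≤ j → x j ∉ U1 g := fun j hj hj2 hj3 =>
      Nat.find_min h1 hj ⟨hj2, hj3⟩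
    obtain ⟨S, hS, hF⟩ := F1_o1 x hm1 hm2 hm3
    obtain ⟨hQ, hv, hp⟩ := hgv S _ hS (by simp)
    have hm4 : 2 * k + 2 ≤ m := by
      have := hv.2.2.2.2.1
      rwa [x.lev] at this
    have hval := valid_o1 x hQ hm4 hv.2.2.1 hv.2.2.2.1
    refine ⟨mkBody x _ hval (auxSeq_paux x S (.o1 S (x m)) rfl), ?_, fun n => rfl⟩
    refine cons_std (S := S) x rfl hval 1 s ?_ (fun h => by simp at h) (fun _ => hS)
    intro n hn
    have hn' : n % 2 = 1 := by simpa using hn
    rcases Nat.lt_or_ge (2 * k) n with c | c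
    · rcases Nat.lt_or_ge (2 * k + 1) n with c1 | c1
      · have e : auxSeq k S (.o1 S (x m)) n = .o1 S (x m) := by
          unfold auxSeq
          rw [if_neg (by omega), if_neg (by omega)]
        have hvn := hval n
        rw [e] at hvn ⊢
        rcases Nat.lt_or_ge n m with c2 | c2
        · exact act_forced x s hvn c2
        · rw [hx2 n hn' (by omega), hF n c2]
      · obtain rfl : n = 2 * k + 1 := by omega
        have e : auxSeq k S (.o1 S (x m)) (2 * k + 1) = .si S := by
          unfold auxSeq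
          rw [if_neg (by omega), if_pos rfl]
        rw [e]
        have h8 := hv.2.2.2.2.2
        have hl : T.lev (act s (x (2 * k + 1)) (.si S)) = 2 * k + 2 := by
          rw [(act_child _ _ _).1, x.lev]
        rw [hl, x.lev, anc_of_le (by omega), anc_body x (by omega)] at h8
        exact h8
    · have e : auxSeq k S (.o1 S (x m)) n = .non := by
        unfold auxSeq
        rw [if_pos c]
      rw [e]
      exact hx1 n hn' c
  · push Not at h1
    have hR : ∀ n, 2 * k + 1 ≤ n → ¬ Reach Set.univ (U1 g) 1 (x n) := by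
      by_contra hcon
      push Not at hcon
      set m := Nat.find hcon with hm
      have hm1 := (Nat.find_spec hcon).1
      have hm2 := (Nat.find_spec hcon).2
      rw [← hm] at hm1 hm2
      have hm3 : ∀ j < m, 2 * k + 1 ≤ j → ¬ Reach Set.univ (U1 g) 1 (x j) :=
        fun j hj hj2 hj3 => Nat.find_min hcon hj ⟨hj2, hj3⟩
      obtain ⟨n, hn, hxn⟩ := rstrat_spec hm2 x (by rw [x.lev]) (by
        intro n hn hni
        rw [x.lev] at hn
        have hni' : n % 2 = 1 := by simpa using hni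
        rw [hx2 n hni' (by omega)]
        exact F1_reach x hm1 hn hm2 hm3 (fun j _ hj => h1 j hj))
      rw [x.lev] at hn
      exact h1 n (by omega) hxn
    have hQ := Sst_spec (x.lev (2 * k + 1)) (hR _ le_rfl)
    set S := Sst k (U1 g) (x (2 * k + 1)) with hS
    have hvS : valid G k (x (2 * k + 1)) (.si S) := ⟨x.lev _, hQ⟩
    have hF : ∀ n, n % 2 = 1 → 2 * k + 1 ≤ n → x (n + 1) =
        if n = 2 * k + 1 then act s (x n) (.si S) else act s (x n) (g (.si S)) := by
      intro n hn hn2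
      rw [hx2 n hn (by omega), F1_o2 x hn2 (fun j _ hj => hR j hj)]
    have hv := act_nxt_valid s hvS
    have hp := act_nxt_paux s hvS
    have hF1 := hF (2 * k + 1) (by omega) le_rfl
    rw [if_pos rfl] at hF1
    rw [← hF1, ← hg] at hv hp
    have hSmem : ∀ n, 2 * k + 1 ≤ n → x n ∈ S := by
      intro n hn
      rw [hS]
      refine ⟨by rw [x.lev]; exact hn, anc_body x hn, fun j hj1 hj2 => ?_⟩
      rw [x.lev] at hj2
      rw [anc_body x hj2]
      exact hR j hj1
    have hno1 : ∃ S', g (.si S) = .o2 S S' := by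
      rcases valid_ge hv (x.lev _).ge with ⟨A, u, hA⟩ | ⟨A, A', hA⟩
      · rw [hA] at hv hp
        unfold paux at hp
        rw [if_neg (by rw [x.lev]; omega), if_pos (x.lev _)] at hp
        have hAS : A = S := by
          have := congrArg Aux.set hp
          exact this
        subst hAS
        exfalso
        have hu : u ∈ S := hv.2.2.1
        have h2 := hu.2.2 (T.lev u) hu.1 le_rfl
        rw [anc_self] at h2
        exact h2 (Reach.base _ ⟨_, hA⟩)
      · rw [hA] at hp
        unfold paux at hp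
        rw [if_neg (by rw [x.lev]; omega), if_pos (x.lev _)] at hp
        have hAS : A = S := by
          have := congrArg Aux.set hp
          exact this
        exact ⟨A', by rw [hA, hAS]⟩
    obtain ⟨S', hS'⟩ := hno1
    rw [hS'] at hv
    have hQ2 : QII G k S' S (x (2 * k + 2)) := by
      have := hv.2.2.1
      rwa [anc_body x le_rfl] at this
    have hmem : ∀ n, 2 * k + 2 ≤ n → x n ∈ S' := by
      intro n hn
      induction n, hn using Nat.le_induction with
      | base => exact hQ2.root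
      | succ n hn ih =>
        rcases Nat.mod_two_eq_zero_or_one n with h0 | h0
        · exact hQ2.opp _ ih (by rw [x.lev]; exact h0) _ (hSmem _ (by omega)) (x.child n)
        · have hvn := valid_o2 x hQ hQ2 (n := n) (fun _ => ih)
          have e : auxSeq k S (.o2 S S') n = .o2 S S' := by
            unfold auxSeq
            rw [if_neg (by omega), if_neg (by omega)]
          rw [e] at hvn
          have hv := act_nxt_valid s hvn
          have hp := act_nxt_paux s hvn
          have hFn := hF n h0 (by omega)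
          rw [if_neg (by omega), hS'] at hFn
          rw [← hFn] at hv hp
          unfold paux at hp
          rw [if_neg (by rw [x.lev]; omega), if_neg (by rw [x.lev]; omega)] at hp
          rw [hp] at hv
          exact hv.2.2.2
    have hval : ∀ n, valid G k (x n) (auxSeq k S (.o2 S S') n) := fun n =>
      valid_o2 x hQ hQ2 (hmem n)
    refine ⟨mkBody x _ hval (auxSeq_paux x S (.o2 S S') rfl), ?_, fun n => rfl⟩
    refine cons_std (S := S) x rfl hval 1 s ?_ (fun h => by simp at h) (fun _ => hS')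
    intro n hn
    have hn' : n % 2 = 1 := by simpa using hn
    rcases Nat.lt_or_ge (2 * k) n with c | c
    · have hFn := hF n hn' (by omega)
      by_cases c1 : n = 2 * k + 1
      · have e : auxSeq k S (.o2 S S') n = .si S := by
          unfold auxSeq
          rw [if_neg (by omega), if_pos c1]
        rw [if_pos c1] at hFn
        rw [e]
        exact hFn.symm
      · have e : auxSeq k S (.o2 S S') n = .o2 S S' := by
          unfold auxSeq
          rw [if_neg (by omega), if_neg (by omega)]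
        rw [if_neg c1, hS'] at hFn
        rw [e]
        exact hFn.symm
    · have e : auxSeq k S (.o2 S S') n = .non := by
        unfold auxSeq
        rw [if_pos c]
      rw [e]
      exact hx1 n hn' c

/-- the unraveling covering -/
def unrCov (G : Set T.V) (k : ℕ) : Cov k (unr G k) T where
  π := unrπ
  lev_π _ := rfl
  par_π _ := rfl
  φ := unrφ
  local_φ i n s s' h v hv := by
    have h1 := act_local h hv
    have h2 : nxt s (anc (2 * k) v) = nxt s' (anc (2 * k) v) :=
      nxt_local h ((lev_anc_le _ _).trans hv)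
    have h3 : nxt s (anc (2 * k + 1) v) = nxt s' (anc (2 * k + 1) v) :=
      nxt_local h ((lev_anc_le _ _).trans hv)
    change (if _ then _ else _) = (if _ then _ else _)
    rw [h1, h2, h3]
  lift i s x hx := by
    have : i = 0 ∨ i = 1 := by omega
    rcases this with rfl | rfl
    · exact lift_zero s x hx
    · exact lift_one s x hx
  inj p q hp h := by
    have h' : p.1.1 = q.1.1 := h
    apply Subtype.ext
    refine Prod.ext h' ?_
    rw [valid_non p.2 hp, valid_non q.2 (by rw [← h']; exact hp)]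
  surj t ht := ⟨⟨(t, .non), ht⟩, rfl⟩
  agree i s p hp := by
    obtain ⟨⟨v, a⟩, hva⟩ := p
    have hp' : T.lev v < 2 * k := hp
    obtain rfl : a = .non := valid_non hva hp'.le
    have hi : i = 0 ∨ i = 1 := by omega
    have key : act s v .non = (s ⟨(v, .non), hva⟩).1.1 := by
      unfold act
      rw [dif_pos hva]
    rcases hi with rfl | rfl
    · change unrφ 0 s v = (s ⟨(v, .non), hva⟩).1.1
      rw [unrφ_zero, F0_le hp'.le, key]
    · change unrφ 1 s v = (s ⟨(v, .non), hva⟩).1.1
      rw [unrφ_one, F1_le hp'.le, key]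

/-- After level `2 * k + 2` the open set is decided. -/
theorem unr_decides (hG : ∀ v w, v ∈ G → IsChild T w v → w ∈ G) (y z : Body (unr G k))
    (h : y (2 * k + 2) = z (2 * k + 2)) (hy : ∃ n, unrπ (y n) ∈ G) : ∃ n, unrπ (z n) ∈ G := by
  have hup : ∀ (x : Body (unr G k)) n m, n ≤ m → unrπ (x n) ∈ G → unrπ (x m) ∈ G := by
    intro x n m hnm hn
    induction m, hnm using Nat.le_induction with
    | base => exact hn
    | succ m _ ih => exact hG _ _ ih (child_fst (x.child m))
  have hl : ∀ (x : Body (unr G k)) n, T.lev (x n).1.1 = n := fun x n => x.lev n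
  rcases valid_ge (y (2 * k + 2)).2 (hl y _).ge with ⟨S, u, hu⟩ | ⟨S, S', hu⟩
  · have hz : ∀ n, 2 * k + 2 ≤ n → (z n).1.2 = .o1 S u := by
      intro n hn
      induction n, hn using Nat.le_induction with
      | base => rw [← h]; exact hu
      | succ n hn ih =>
        have hp := child_snd (z.child n)
        unfold paux at hp
        rw [if_neg (by rw [hl]; omega), if_neg (by rw [hl]; omega)] at hp
        rw [hp, ih]
    have hv := (y (2 * k + 2)).2
    rw [hu] at hv
    obtain ⟨-, -, -, h6, h7, -⟩ := hv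
    have hv2 := (z (T.lev u)).2
    rw [hz _ h7] at hv2
    have h8 := hv2.2.2.2.2.2
    rw [anc_of_le (hl z _).le, hl, anc_self] at h8
    exact ⟨T.lev u, by change (z (T.lev u)).1.1 ∈ G; rw [h8]; exact h6⟩
  · exfalso
    obtain ⟨n, hn⟩ := hy
    have hy2 : ∀ n, 2 * k + 2 ≤ n → (y n).1.2 = .o2 S S' := by
      intro n hn
      induction n, hn using Nat.le_induction with
      | base => exact hu
      | succ n hn ih =>
        have hp := child_snd (y.child n)
        unfold paux at hp
        rw [if_neg (by rw [hl]; omega), if_neg (by rw [hl]; omega)] at hp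
        rw [hp, ih]
    have h9 := hup y n (n + (2 * k + 2)) (by omega) hn
    have hv := (y (n + (2 * k + 2))).2
    rw [hy2 _ (by omega)] at hv
    exact hv.2.2.1.safe _ hv.2.2.2 h9

end Pool.Agent.H71.BD
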