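import Mathlib

set_option autoImplicit false

/-!
# Game trees, strategies and coverings (towards Borel determinacy)
-/

noncomputable section

namespace Pool.Agent.H71.BD

universe u

/-- A (multi-rooted) pruned tree: positions with a level and a parent map. -/
structure GTree : Type (u + 1) where
  V : Type u
  lev : V → ℕ
  par : V → V
  lev_par : ∀ v, lev (par v) = lev v - 1
  par_root : ∀ v, lev v = 0 → par v = v
  pruned : ∀ v, ∃ w, lev w = lev v + 1 ∧ par w = v

variable (T : GTree.{u})

/-- `w` is a child of `v`. -/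
def IsChild (w v : T.V) : Prop := T.lev w = T.lev v + 1 ∧ T.par w = v

/-- Infinite branches. -/
def Body : Type u := {x : ℕ → T.V // ∀ n, T.lev (x n) = n ∧ T.par (x (n + 1)) = x n}

instance : CoeFun (Body T) (fun _ => ℕ → T.V) := ⟨fun x => x.1⟩

variable {T}

theorem Body.lev (x : Body T) (n : ℕ) : T.lev (x n) = n := (x.2 n).1
theorem Body.par (x : Body T) (n : ℕ) : T.par (x (n + 1)) = x n := (x.2 n).2
theorem Body.child (x : Body T) (n : ℕ) : IsChild T (x (n + 1)) (x n) := by
  refine ⟨?_, x.par n⟩
  rw [x.lev, x.lev]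

/-- ancestor at level `n` -/
def anc (n : ℕ) (v : T.V) : T.V := T.par^[T.lev v - n] v

theorem lev_iterate (j : ℕ) (v : T.V) : T.lev (T.par^[j] v) = T.lev v - j := by
  induction j with
  | zero => simp
  | succ j ih =>
    rw [Function.iterate_succ_apply', T.lev_par, ih]
    omega

theorem lev_anc {n : ℕ} {v : T.V} (h : n ≤ T.lev v) : T.lev (anc n v) = n := by
  unfold anc
  rw [lev_iterate]
  omega

theorem anc_self (v : T.V) : anc (T.lev v) v = v := by
  unfold anc
  simp

theorem anc_of_le {n : ℕ} {v : T.V} (h : T.lev v ≤ n) : anc n v = v := by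
  unfold anc
  rw [Nat.sub_eq_zero_of_le h]
  rfl

theorem anc_par {n : ℕ} {v : T.V} (h : n < T.lev v) : anc n (T.par v) = anc n v := by
  have h1 : T.lev v - n = (T.lev v - 1 - n) + 1 := by omega
  unfold anc
  rw [T.lev_par, h1]
  rfl

theorem par_anc {n : ℕ} {v : T.V} (h : n < T.lev v) : T.par (anc (n + 1) v) = anc n v := by
  have h1 : T.lev v - n = (T.lev v - (n + 1)) + 1 := by omega
  unfold anc
  rw [h1, Function.iterate_succ_apply']

theorem anc_child {n : ℕ} {v w : T.V} (hw : IsChild T w v) (h : n ≤ T.lev v) :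
    anc n w = anc n v := by
  have h1 : n < T.lev w := by rw [hw.1]; omega
  rw [← anc_par h1, hw.2]

theorem anc_body (x : Body T) {n m : ℕ} (h : n ≤ m) : anc n (x m) = x n := by
  induction m with
  | zero =>
    obtain rfl : n = 0 := by omega
    exact anc_of_le (by rw [x.lev])
  | succ m ih =>
    rcases Nat.lt_or_ge m n with h1 | h1
    · obtain rfl : n = m + 1 := by omega
      exact anc_of_le (by rw [x.lev])
    · rw [anc_child (x.child m) (by rw [x.lev]; exact h1)]
      exact ih h1

theorem anc_anc {n m : ℕ} {v : T.V} (h : n ≤ m) (hm : m ≤ T.lev v) :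
    anc n (anc m v) = anc n v := by
  unfold anc
  rw [lev_iterate, ← Function.iterate_add_apply]
  congr 1
  omega

/-- A strategy (defined at all positions; only the relevant parity is used). -/
def Strat (T : GTree.{u}) : Type u := {f : T.V → T.V // ∀ v, IsChild T (f v) v}

instance : CoeFun (Strat T) (fun _ => T.V → T.V) := ⟨fun s => s.1⟩

theorem Strat.child (s : Strat T) (v : T.V) : IsChild T (s v) v := s.2 v

/-- a default child -/
def dflt (v : T.V) : T.V := (T.pruned v).choose
theorem dflt_child (v : T.V) : IsChild T (dflt v) v := (T.pruned v).choose_spec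

/-- the default strategy -/
def dfltStrat (T : GTree.{u}) : Strat T := ⟨dflt, dflt_child⟩

instance : Nonempty (Strat T) := ⟨dfltStrat T⟩

/-- A play is consistent with a strategy for the player with parity `i`. -/
def Cons (i : Fin 2) (s : Strat T) (x : Body T) : Prop :=
  ∀ n, n % 2 = (i : ℕ) → x (n + 1) = s (x n)

/-- a play follows the strategy from level `m` on -/
def ConsFrom (m : ℕ) (i : Fin 2) (s : Strat T) (x : Body T) : Prop :=
  ∀ n, m ≤ n → n % 2 = (i : ℕ) → x (n + 1) = s (x n)

/-- Positions from which player `i` can force to reach `U`, moving inside `S`. -/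
inductive Reach (S U : Set T.V) (i : Fin 2) : T.V → Prop
  | base (v : T.V) : v ∈ U → Reach S U i v
  | own (v w : T.V) : T.lev v % 2 = (i : ℕ) → w ∈ S → IsChild T w v → Reach S U i w →
      Reach S U i v
  | opp (v : T.V) : T.lev v % 2 ≠ (i : ℕ) → (∀ w, IsChild T w v → Reach S U i w) →
      Reach S U i v

theorem Reach.exists_strat {S U : Set T.V} {i : Fin 2} {v : T.V} (h : Reach S U i v) :
    ∃ s : Strat T, ∀ x : Body T, x (T.lev v) = v → ConsFrom (T.lev v) i s x →
      ∃ n, T.lev v ≤ n ∧ x n ∈ U := by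
  classical
  induction h with
  | base v hv => exact ⟨dfltStrat T, fun x hx _ => ⟨T.lev v, le_rfl, by rwa [hx]⟩⟩
  | own v w hi hw hwv _ ih =>
    obtain ⟨s, hs⟩ := ih
    refine ⟨⟨fun a => if a = v then w else s a, fun a => ?_⟩, fun x hx hc => ?_⟩
    · by_cases ha : a = v
      · subst ha; simpa using hwv
      · simpa [ha] using s.child a
    · have h1 : x (T.lev w) = w := by
        rw [hwv.1, hc (T.lev v) le_rfl hi]
        simp [hx]
      obtain ⟨n, hn, hxn⟩ := hs x h1 (by
        intro n hn hni
        have := hc n (by rw [hwv.1] at hn; omega) hni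
        rw [this]
        have hne : x n ≠ v := by
          intro he
          have := congrArg T.lev he
          rw [x.lev] at this
          rw [hwv.1] at hn
          omega
        simp [hne])
      exact ⟨n, by rw [hwv.1] at hn; omega, hxn⟩
  | opp v hi hch ih =>
    choose! s hs using ih
    refine ⟨⟨fun a => s (anc (T.lev v + 1) a) a, fun a => (s _).child a⟩, fun x hx hc => ?_⟩
    have hchild : IsChild T (x (T.lev v + 1)) v := by
      have := x.child (T.lev v)
      rwa [hx] at this
    obtain ⟨n, hn, hxn⟩ := hs (x (T.lev v + 1)) hchild x (by rw [x.lev]) (by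
      intro n hn hni
      rw [x.lev] at hn
      rw [hc n (by omega) hni]
      change s (anc (T.lev v + 1) (x n)) (x n) = _
      rw [anc_body x hn])
    rw [x.lev] at hn
    exact ⟨n, by omega, hxn⟩

/-- a strategy reaching the target, for positions in `Reach` -/
def rstrat (S U : Set T.V) (i : Fin 2) (v : T.V) : Strat T := by
  classical
  exact if h : Reach S U i v then h.exists_strat.choose else dfltStrat T

theorem rstrat_spec {S U : Set T.V} {i : Fin 2} {v : T.V} (h : Reach S U i v) :
    ∀ x : Body T, x (T.lev v) = v → ConsFrom (T.lev v) i (rstrat S U i v) x →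
      ∃ n, T.lev v ≤ n ∧ x n ∈ U := by
  unfold rstrat
  rw [dif_pos h]
  exact h.exists_strat.choose_spec

/-- Open determinacy. -/
theorem open_det (W : Set (Body T)) (hW : ∀ x ∈ W, ∃ n, ∀ y : Body T, y n = x n → y ∈ W)
    (r : T.V) (hr : T.lev r = 0) :
    (∃ s : Strat T, ∀ x : Body T, x 0 = r → Cons 0 s x → x ∈ W) ∨
    (∃ s : Strat T, ∀ x : Body T, x 0 = r → Cons 1 s x → x ∉ W) := by
  classical
  let U : Set T.V := {v | ∀ x : Body T, x (T.lev v) = v → x ∈ W}
  by_cases h : Reach Set.univ U 0 r
  · left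
    obtain ⟨s, hs⟩ := h.exists_strat
    refine ⟨s, fun x hx hc => ?_⟩
    obtain ⟨n, _, hn⟩ := hs x (by rw [hr, hx]) (fun n _ hni => hc n hni)
    exact hn x (by rw [x.lev])
  · right
    refine ⟨⟨fun v => if h : ∃ w, IsChild T w v ∧ ¬ Reach Set.univ U 0 w then h.choose else dflt v,
      fun v => ?_⟩, fun x hx hc => ?_⟩
    · by_cases h : ∃ w, IsChild T w v ∧ ¬ Reach Set.univ U 0 w
      · simp only [dif_pos h]; exact h.choose_spec.1
      · simp only [dif_neg h]; exact dflt_child v
    · have key : ∀ n, ¬ Reach Set.univ U 0 (x n) := by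
        intro n
        induction n with
        | zero => rwa [hx]
        | succ n ih =>
          rcases Nat.mod_two_eq_zero_or_one n with h0 | h1
          · intro hR
            exact ih (Reach.own _ _ (by rw [x.lev]; exact h0) (Set.mem_univ _) (x.child n) hR)
          · have hex : ∃ w, IsChild T w (x n) ∧ ¬ Reach Set.univ U 0 w := by
              by_contra hcon
              push Not at hcon
              exact ih (Reach.opp _ (by rw [x.lev, h1]; simp) hcon)
            rw [hc n h1]
            change ¬ Reach Set.univ U 0 (if h : _ then _ else _)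
            rw [dif_pos hex]
            exact hex.choose_spec.2
      intro hxW
      obtain ⟨n, hn⟩ := hW x hxW
      apply key n
      refine Reach.base _ fun y hy => hn y ?_
      rwa [x.lev] at hy

/-- A covering of `T` by `S`, which is the identity up to level `2 * k`. -/
structure Cov (k : ℕ) (S T : GTree.{u}) where
  π : S.V → T.V
  lev_π : ∀ v, T.lev (π v) = S.lev v
  par_π : ∀ v, π (S.par v) = T.par (π v)
  φ : Fin 2 → Strat S → Strat T
  local_φ : ∀ (i : Fin 2) (n : ℕ) (s s' : Strat S), (∀ v, S.lev v ≤ n → s v = s' v) →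
    ∀ v, T.lev v ≤ n → φ i s v = φ i s' v
  lift : ∀ (i : Fin 2) (s : Strat S) (x : Body T), Cons i (φ i s) x →
    ∃ y : Body S, Cons i s y ∧ ∀ n, π (y n) = x n
  inj : ∀ v w, S.lev v ≤ 2 * k → π v = π w → v = w
  surj : ∀ t, T.lev t ≤ 2 * k → ∃ v, π v = t
  agree : ∀ (i : Fin 2) (s : Strat S) (v : S.V), S.lev v < 2 * k → φ i s (π v) = π (s v)

variable {S : GTree.{u}}

/-- the induced map on branches -/
def bmap (f : S.V → T.V) (hl : ∀ v, T.lev (f v) = S.lev v) (hp : ∀ v, f (S.par v) = T.par (f v))
    (x : Body S) : Body T :=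
  ⟨fun n => f (x n), fun n => ⟨by rw [hl, x.lev], by rw [← hp, x.par]⟩⟩

/-- A level preserving map of trees. -/
structure TMap (S T : GTree.{u}) where
  f : S.V → T.V
  lev_f : ∀ v, T.lev (f v) = S.lev v
  par_f : ∀ v, f (S.par v) = T.par (f v)

def TMap.body (f : TMap S T) (x : Body S) : Body T := bmap f.f f.lev_f f.par_f x

def Cov.toTMap {k : ℕ} (C : Cov k S T) : TMap S T := ⟨C.π, C.lev_π, C.par_π⟩

@[simp] theorem TMap.body_apply (f : TMap S T) (x : Body S) (n : ℕ) :
    f.body x n = f.f (x n) := rfl

def TMap.comp {R : GTree.{u}} (g : TMap S T) (f : TMap R S) : TMap R T where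
  f := g.f ∘ f.f
  lev_f v := by simp [g.lev_f, f.lev_f]
  par_f v := by simp [g.par_f, f.par_f]

def TMap.id (T : GTree.{u}) : TMap T T := ⟨_root_.id, fun _ => rfl, fun _ => rfl⟩

theorem Body.ext {x y : Body T} (h : ∀ n, x n = y n) : x = y := Subtype.ext (funext h)

theorem Cov.lift' {k : ℕ} (C : Cov k S T) (i : Fin 2) (s : Strat S) (x : Body T)
    (hx : Cons i (C.φ i s) x) : ∃ y : Body S, Cons i s y ∧ C.toTMap.body y = x := by
  obtain ⟨y, hy, hyx⟩ := C.lift i s x hx
  exact ⟨y, hy, Body.ext hyx⟩

/-- composition of coverings -/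
def Cov.comp {k : ℕ} {R : GTree.{u}} (C : Cov k S T) (D : Cov k R S) : Cov k R T where
  π := C.π ∘ D.π
  lev_π v := by simp [C.lev_π, D.lev_π]
  par_π v := by simp [C.par_π, D.par_π]
  φ i s := C.φ i (D.φ i s)
  local_φ i n s s' h v hv := C.local_φ i n _ _ (fun w hw => D.local_φ i n _ _ h w hw) v hv
  lift i s x hx := by
    obtain ⟨y, hy, hyx⟩ := C.lift i _ x hx
    obtain ⟨z, hz, hzy⟩ := D.lift i s y hy
    exact ⟨z, hz, fun n => by simp [hzy, hyx]⟩
  inj v w hv h := D.inj v w hv (C.inj _ _ (by rw [D.lev_π]; exact hv) h)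
  surj t ht := by
    obtain ⟨v, hv⟩ := C.surj t ht
    obtain ⟨w, hw⟩ := D.surj v (by rw [← C.lev_π, hv]; exact ht)
    exact ⟨w, by simp [hw, hv]⟩
  agree i s v hv := by
    simp only [Function.comp_apply]
    rw [C.agree i _ _ (by rw [D.lev_π]; exact hv), D.agree i s v hv]

theorem Cov.comp_toTMap {k : ℕ} {R : GTree.{u}} (C : Cov k S T) (D : Cov k R S) :
    (C.comp D).toTMap = C.toTMap.comp D.toTMap := rfl

end Pool.Agent.H71.BD
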